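import Pool.Agent.Q187.DC.Sym

/-!
# A system with an uncountable DC2½ set and without DC2 pairs
-/

set_option autoImplicit false

open Set Filter Topology

namespace Pool.Agent.Q187.DC

/-- The level of a time: `P (lev t) ≤ t < P (lev t + 1)`. -/
def lev (t : ℕ) : ℕ := Nat.findGreatest (fun M => P M ≤ t) t

lemma lev_spec {t : ℕ} (ht : 1 ≤ t) : P (lev t) ≤ t ∧ t < P (lev t + 1) := by
  have h1 : P (lev t) ≤ t :=
    Nat.findGreatest_spec (P := fun M => P M ≤ t) (Nat.zero_le t) (by simpa [P_zero] using ht)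
  refine ⟨h1, ?_⟩
  by_contra h2
  push Not at h2
  have h3 : lev t + 1 ≤ t := ((le_P (lev t + 1)).le).trans h2
  have h4 : lev t + 1 ≤ lev t := Nat.le_findGreatest (P := fun M => P M ≤ t) h3 h2
  omega

lemma lev_eq {t M : ℕ} (h1 : P M ≤ t) (h2 : t < P (M + 1)) : lev t = M := by
  have ht : 1 ≤ t := (P_pos M).trans_le h1
  obtain ⟨h3, h4⟩ := lev_spec ht
  by_contra hne
  rcases Nat.lt_or_gt_of_ne hne with h | h
  · have := P_mono (show lev t + 1 ≤ M by omega)
    omega
  · have := P_mono (show M + 1 ≤ lev t by omega)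
    omega

/-- The index shown by the cell `d` of level `M`. -/
def cellIx (M d : ℕ) : ℕ := if M % 2 = 1 ∧ d % 2 = 1 then 0 else padicValNat 2 (d / 2 + 1)

/-- The index shown at time `t`. -/
def ix (t : ℕ) : ℕ := if t = 0 then 0 else cellIx (lev t) (t / P (lev t))

lemma ix_cell {M d r : ℕ} (hd : 1 ≤ d) (hd' : d < lam M) (hr : r < P M) :
    ix (d * P M + r) = cellIx M d := by
  have hP := P_pos M
  have h1 : P M ≤ d * P M + r := by nlinarith
  have h2 : d * P M + r < P (M + 1) := by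
    rw [P_succ]
    calc d * P M + r < d * P M + P M := by omega
      _ = (d + 1) * P M := by ring
      _ ≤ lam M * P M := Nat.mul_le_mul_right _ hd'
  unfold ix
  rw [if_neg (by omega), lev_eq h1 h2]
  congr 1
  rw [mul_comm, Nat.mul_add_div hP, Nat.div_eq_of_lt hr, add_zero]

/-- The index changes only at multiples of `P N`. -/
lemma ix_jump {t N : ℕ} (ht : P N ≤ t) (h : ix t ≠ ix (t + 1)) : P N ∣ t + 1 := by
  have ht1 : 1 ≤ t := (P_pos N).trans_le ht
  obtain ⟨h1, h2⟩ := lev_spec ht1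
  have hN : N ≤ lev t := by
    by_contra h3
    have := P_mono (show lev t + 1 ≤ N by omega)
    omega
  by_contra h3
  have h4 : ¬ P (lev t) ∣ t + 1 := fun h5 => h3 ((P_dvd hN).trans h5)
  apply h
  have h5 : t + 1 < P (lev t + 1) := by
    rcases Nat.lt_or_ge (t + 1) (P (lev t + 1)) with h6 | h6
    · exact h6
    · exact absurd (by
        have e : t + 1 = P (lev t + 1) := by omega
        rw [e]; exact P_dvd (by omega)) h4
  have h6 : lev (t + 1) = lev t := lev_eq (by omega) h5
  unfold ix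
  rw [if_neg (by omega), if_neg (by omega), h6, Nat.succ_div_of_not_dvd h4]

/-- The starting points. -/
def wg (γ : ℕ → Bool) : W := fun n => (γ (ix n), 0)

lemma wg_continuous : Continuous wg := by
  have h : Continuous (fun γ : ℕ → Bool => (fun n => ((γ (ix n), 0) : Bool × Fin (P n)))) :=
    continuous_pi fun n => (continuous_apply (ix n)).prodMk continuous_const
  exact h

lemma T_continuous : Continuous T := by
  have hL : LipschitzWith 2 T := LipschitzWith.of_dist_le_mul fun x y => T_dist x y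
  exact hL.continuous

lemma T_iter_continuous (k : ℕ) : Continuous (T^[k]) := T_continuous.iterate k

/-- The points reached after time `K`. -/
def orb (K : ℕ) : Set W := {w | ∃ k γ, K ≤ k ∧ w = T^[k] (wg γ)}

/-- The closed invariant set. -/
def S1 : Set W := closure (orb 0)

lemma S1_closed : IsClosed S1 := isClosed_closure

lemma S1_inv : ∀ w ∈ S1, T w ∈ S1 := by
  intro w hw
  refine map_mem_closure T_continuous hw ?_
  rintro _ ⟨k, γ, -, rfl⟩
  exact ⟨k + 1, γ, Nat.zero_le _, by rw [Function.iterate_succ_apply']⟩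

lemma wg_iter_symbol (γ : ℕ → Bool) (k i : ℕ) : (T^[k] (wg γ) i).1 = γ (ix (i + k)) := by
  rw [T_iter]; rfl

lemma S1_cases (w : W) (hw : w ∈ S1) : (∃ k γ, w = T^[k] (wg γ)) ∨
    (∃ b K, ∀ i ≥ K, (w i).1 = b) := by
  by_cases h : ∃ k γ, w = T^[k] (wg γ)
  · exact Or.inl h
  · right
    -- `w` is a limit of points reached late
    have hlate : ∀ K, w ∈ closure (orb K) := by
      intro K
      have hsub : orb 0 ⊆ (⋃ k ∈ Finset.range K, (fun γ => T^[k] (wg γ)) '' univ) ∪ orb K := by
        rintro _ ⟨k, γ, -, rfl⟩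
        rcases Nat.lt_or_ge k K with h1 | h1
        · left
          simp only [mem_iUnion]
          exact ⟨k, Finset.mem_range.mpr h1, γ, mem_univ _, rfl⟩
        · exact Or.inr ⟨k, γ, h1, rfl⟩
      have hcl : IsClosed (⋃ k ∈ Finset.range K, (fun γ : ℕ → Bool => T^[k] (wg γ)) '' univ) := by
        refine Set.Finite.isClosed_biUnion (Finset.finite_toSet _) fun k _ => ?_
        exact (isCompact_univ.image ((T_iter_continuous k).comp wg_continuous)).isClosed
      have h1 := closure_mono hsub hw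
      rw [closure_union, hcl.closure_eq] at h1
      rcases h1 with h1 | h1
      · exfalso
        simp only [mem_iUnion] at h1
        obtain ⟨k, -, γ, -, h2⟩ := h1
        exact h ⟨k, γ, h2.symm⟩
      · exact h1
    have hjump : ∀ i j, i < j → ¬ ((w i).1 ≠ (w (i + 1)).1 ∧ (w j).1 ≠ (w (j + 1)).1) := by
      intro i j hij
      have hc : IsClosed {v : W | ¬ ((v i).1 ≠ (v (i + 1)).1 ∧ (v j).1 ≠ (v (j + 1)).1)} := by
        have e : {v : W | ¬ ((v i).1 ≠ (v (i + 1)).1 ∧ (v j).1 ≠ (v (j + 1)).1)} =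
            (fun v : W => ((v i, v (i + 1)), (v j, v (j + 1)))) ⁻¹'
            {q : ((Bool × Fin (P i)) × (Bool × Fin (P (i + 1)))) ×
              ((Bool × Fin (P j)) × (Bool × Fin (P (j + 1)))) |
              ¬ (q.1.1.1 ≠ q.1.2.1 ∧ q.2.1.1 ≠ q.2.2.1)} := rfl
        rw [e]
        refine (isClosed_discrete _).preimage ?_
        exact ((W_continuous_apply i).prodMk (W_continuous_apply (i + 1))).prodMk
          ((W_continuous_apply j).prodMk (W_continuous_apply (j + 1)))
      refine closure_minimal ?_ hc (hlate (P (j - i)))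
      rintro _ ⟨k, γ, hk, rfl⟩ ⟨h1, h2⟩
      rw [wg_iter_symbol, wg_iter_symbol] at h1 h2
      have e1 : i + 1 + k = i + k + 1 := by ring
      have e2 : j + 1 + k = j + k + 1 := by ring
      rw [e1] at h1
      rw [e2] at h2
      have h3 := ix_jump (N := j - i) (t := i + k) (by omega) (fun h4 => h1 (by rw [h4]))
      have h4 := ix_jump (N := j - i) (t := j + k) (by omega) (fun h4 => h2 (by rw [h4]))
      have h5 := Nat.dvd_sub h4 h3
      have e3 : j + k + 1 - (i + k + 1) = j - i := by omega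
      rw [e3] at h5
      have h6 := Nat.le_of_dvd (by omega) h5
      have h7 := le_P (j - i)
      omega
    by_cases h1 : ∃ i, (w i).1 ≠ (w (i + 1)).1
    · obtain ⟨i, hi⟩ := h1
      refine ⟨(w (i + 1)).1, i + 1, fun j hj => ?_⟩
      induction j, hj using Nat.le_induction with
      | base => rfl
      | succ j hj ih =>
        rw [← ih]
        by_contra h2
        exact hjump i j (by omega) ⟨hi, fun h3 => h2 h3.symm⟩
    · push Not at h1
      refine ⟨(w 0).1, 0, fun j _ => ?_⟩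
      induction j with
      | zero => rfl
      | succ j ih => rw [← h1 j, ih (Nat.zero_le _)]

/-! ### Disagreement -/

lemma val_odd (v s : ℕ) : padicValNat 2 (2 ^ v * (2 * s + 1)) = v := by
  have h1 : (2 : ℕ) ^ v ≠ 0 := by positivity
  rw [padicValNat.mul h1 (by omega), padicValNat.prime_pow,
    padicValNat.eq_zero_of_not_dvd (by omega), add_zero]

/-- The number of times before `N` at which two points disagree. -/
noncomputable def dis (γ γ' : ℕ → Bool) (N : ℕ) : ℕ :=
  ((Finset.range N).filter (fun t => γ (ix t) ≠ γ' (ix t))).card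

lemma dis_mono (γ γ' : ℕ → Bool) {N N' : ℕ} (h : N ≤ N') : dis γ γ' N ≤ dis γ γ' N' :=
  Finset.card_le_card (Finset.filter_subset_filter _ (Finset.range_subset_range.mpr h))

lemma dis_cells {γ γ' : ℕ → Bool} {j : ℕ} (hj : γ j ≠ γ' j) {M D : ℕ} (hD : D ≤ lam M) :
    P M * (D / 2 ^ (j + 2) - 1) ≤ dis γ γ' (D * P M) := by
  have e : P M * (D / 2 ^ (j + 2) - 1) =
      ((Finset.Ico 1 (D / 2 ^ (j + 2))) ×ˢ (Finset.range (P M))).card := by
    rw [Finset.card_product, Nat.card_Ico, Finset.card_range, mul_comm]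
  rw [e]
  unfold dis
  have hq : (0 : ℕ) < 2 ^ j := by positivity
  have e1 : (2 : ℕ) ^ (j + 2) = 4 * 2 ^ j := by rw [pow_add]; ring
  obtain ⟨q, hqq⟩ : ∃ q, q = 2 ^ j := ⟨_, rfl⟩
  rw [e1]
  rw [← hqq] at hq ⊢
  refine Finset.card_le_card_of_injOn (fun x => (4 * q * x.1 + (2 * q - 2)) * P M + x.2) ?_ ?_
  · rintro ⟨s, r⟩ hx
    rw [Finset.mem_coe, Finset.mem_product, Finset.mem_Ico, Finset.mem_range] at hx
    obtain ⟨⟨h1, h2⟩, h3⟩ := hx
    simp only at h1 h2 h3
    rw [Finset.mem_coe, Finset.mem_filter, Finset.mem_range]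
    have h4 : 4 * q * (s + 1) ≤ D := by
      have h5 := Nat.mul_le_mul_left (4 * q) h2
      have h6 := Nat.mul_div_le D (4 * q)
      exact h5.trans h6
    have h5 : 4 * q * s + (2 * q - 2) < D := by
      have : 4 * q * (s + 1) = 4 * q * s + 4 * q := by ring
      omega
    have h6 : 1 ≤ 4 * q * s + (2 * q - 2) := by
      have : 4 * q * 1 ≤ 4 * q * s := Nat.mul_le_mul_left _ h1
      omega
    constructor
    · calc (4 * q * s + (2 * q - 2)) * P M + r < (4 * q * s + (2 * q - 2)) * P M + P M := by omega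
        _ = (4 * q * s + (2 * q - 2) + 1) * P M := by ring
        _ ≤ D * P M := Nat.mul_le_mul_right _ h5
    · simp only
      rw [ix_cell h6 (by omega) h3]
      have h7 : cellIx M (4 * q * s + (2 * q - 2)) = j := by
        unfold cellIx
        have e2 : 4 * q * s + (2 * q - 2) = 2 * (2 * q * s + (q - 1)) := by
          have : 2 * (2 * q * s + (q - 1)) = 4 * q * s + 2 * (q - 1) := by ring
          omega
        rw [if_neg (by rw [e2]; omega), e2, Nat.mul_div_cancel_left _ two_pos]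
        have e3 : 2 * q * s + (q - 1) + 1 = 2 ^ j * (2 * s + 1) := by
          rw [← hqq]
          have : q * (2 * s + 1) = 2 * q * s + q := by ring
          omega
        rw [e3, val_odd]
      rw [h7]
      exact hj
  · rintro ⟨s, r⟩ hx ⟨s', r'⟩ hx' h
    rw [Finset.mem_coe, Finset.mem_product, Finset.mem_Ico, Finset.mem_range] at hx hx'
    simp only at h hx hx'
    have hP := P_pos M
    have h1 := congrArg (fun x => x / P M) h
    have h2 := congrArg (fun x => x % P M) h
    rw [mul_comm _ (P M), mul_comm _ (P M), Nat.mul_add_div hP, Nat.mul_add_div hP,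
      Nat.div_eq_of_lt hx.2, Nat.div_eq_of_lt hx'.2] at h1
    rw [mul_comm _ (P M), mul_comm _ (P M), Nat.mul_add_mod, Nat.mul_add_mod,
      Nat.mod_eq_of_lt hx.2, Nat.mod_eq_of_lt hx'.2] at h2
    have h3 : 4 * q * s = 4 * q * s' := by omega
    have h4 : s = s' := Nat.eq_of_mul_eq_mul_left (by omega) h3
    rw [h4, h2]

lemma dis_lower {γ γ' : ℕ → Bool} {j : ℕ} (hj : γ j ≠ γ' j) :
    ∃ C : ℕ, 0 < C ∧ ∃ N₀, ∀ N ≥ N₀, N ≤ C * dis γ γ' N := by
  obtain ⟨q, hq⟩ : ∃ q : ℕ, q = 2 ^ (j + 2) := ⟨_, rfl⟩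
  have hq0 : 0 < q := by rw [hq]; positivity
  refine ⟨8 * q * q, by positivity, P (j + 3), fun N hN => ?_⟩
  have hN1 : 1 ≤ N := (P_pos _).trans_le hN
  obtain ⟨h1, h2⟩ := lev_spec hN1
  obtain ⟨M, hM⟩ : ∃ M, M = lev N := ⟨_, rfl⟩
  rw [← hM] at h1 h2
  have hMj : j + 3 ≤ M := by
    by_contra h3
    have := P_mono (show M + 1 ≤ j + 3 by omega)
    omega
  have hP := P_pos M
  obtain ⟨D, hD⟩ : ∃ D, D = N / P M := ⟨_, rfl⟩
  have hDlam : D < lam M := by
    rw [hD, Nat.div_lt_iff_lt_mul hP, ← P_succ]; exact h2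
  have hDN : D * P M ≤ N := by rw [hD]; exact Nat.div_mul_le_self _ _
  have hND : N < (D + 1) * P M := by
    rw [hD]
    exact (Nat.div_lt_iff_lt_mul hP).mp (Nat.lt_succ_self _)
  have key : ∀ M' D', D' ≤ lam M' → 4 * q ≤ D' → D' * P M' ≤ 2 * q * dis γ γ' (D' * P M') := by
    intro M' D' hD' h4
    have h5 := dis_cells hj hD'
    rw [← hq] at h5
    have h6 : D' ≤ 2 * q * (D' / q - 1) := by
      have h7 := Nat.lt_div_mul_add hq0 (a := D')
      have h8 : 4 ≤ D' / q := (Nat.le_div_iff_mul_le hq0).mpr h4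
      obtain ⟨e, he⟩ : ∃ e, D' / q = e + 4 := ⟨D' / q - 4, by omega⟩
      rw [he] at h7 ⊢
      have h9 : e + 4 - 1 = e + 3 := by omega
      rw [h9]
      nlinarith
    calc D' * P M' ≤ (2 * q * (D' / q - 1)) * P M' := Nat.mul_le_mul_right _ h6
      _ = 2 * q * (P M' * (D' / q - 1)) := by ring
      _ ≤ 2 * q * dis γ γ' (D' * P M') := Nat.mul_le_mul_left _ h5
  rcases Nat.lt_or_ge D (4 * q) with h3 | h3
  · -- use the previous level
    obtain ⟨M', hM'⟩ : ∃ M', M = M' + 1 := ⟨M - 1, by omega⟩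
    have h4 : 4 * q ≤ lam M' := by
      rw [hq]
      unfold lam
      have h5 : (2 : ℕ) ^ (j + 2) ≤ 4 ^ (j + 2) := Nat.pow_le_pow_left (by norm_num) _
      have h6 : (4 : ℕ) ^ (j + 2) ≤ 4 ^ M' := Nat.pow_le_pow_right (by norm_num) (by omega)
      omega
    have h5 := key M' (lam M') le_rfl h4
    rw [← P_succ, ← hM'] at h5
    have h6 := dis_mono γ γ' h1
    calc N ≤ (D + 1) * P M := hND.le
      _ ≤ 4 * q * P M := Nat.mul_le_mul_right _ h3
      _ ≤ 4 * q * (2 * q * dis γ γ' (P M)) := Nat.mul_le_mul_left _ h5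
      _ ≤ 4 * q * (2 * q * dis γ γ' N) :=
        Nat.mul_le_mul_left _ (Nat.mul_le_mul_left _ h6)
      _ = 8 * q * q * dis γ γ' N := by ring
  · have h5 := key M D hDlam.le h3
    have h6 := dis_mono γ γ' hDN
    have h7 : 1 ≤ D := by omega
    calc N ≤ (D + 1) * P M := hND.le
      _ ≤ (2 * D) * P M := Nat.mul_le_mul_right _ (by omega)
      _ = 2 * (D * P M) := by ring
      _ ≤ 2 * (2 * q * dis γ γ' (D * P M)) := Nat.mul_le_mul_left _ h5
      _ ≤ 2 * (2 * q * dis γ γ' N) := Nat.mul_le_mul_left _ (Nat.mul_le_mul_left _ h6)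
      _ = 4 * q * dis γ γ' N := by ring
      _ ≤ 8 * q * q * dis γ γ' N := Nat.mul_le_mul_right _ (by nlinarith)

end Pool.Agent.Q187.DC
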