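import Pool.Agent.Q187.DC.B1

/-!
# No DC2 pairs
-/

set_option autoImplicit false

open Set Filter Topology

namespace Pool.Agent.Q187.DC

instance : CompactSpace S1 := isCompact_iff_compactSpace.mp S1_closed.isCompact

lemma wg_mem (γ : ℕ → Bool) : wg γ ∈ S1 := subset_closure ⟨0, γ, le_rfl, rfl⟩

instance : Nonempty S1 := ⟨⟨wg fun _ => false, wg_mem _⟩⟩

lemma ofNat_inj {k k' : ℕ} (h : ∀ n, Fin.ofNat (P n) k = Fin.ofNat (P n) k') : k = k' := by
  have h1 := congrArg Fin.val (h (max k k'))
  have h2 := le_P (max k k')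
  simp only [Fin.ofNat] at h1
  rw [Nat.mod_eq_of_lt (by omega), Nat.mod_eq_of_lt (by omega)] at h1
  exact h1

/-- Two points with the same odometer coordinates are eventually given by two sequences and the
same time. -/
lemma tails (x y : W) (hx : x ∈ S1) (hy : y ∈ S1) (h : ∀ n, (x n).2 = (y n).2) :
    ∃ (k : ℕ) (γ γ' : ℕ → Bool) (K : ℕ), ∀ i ≥ K,
      (x i).1 = γ (ix (i + k)) ∧ (y i).1 = γ' (ix (i + k)) := by
  rcases S1_cases x hx with ⟨k, γ, rfl⟩ | ⟨b, K, hb⟩
  · rcases S1_cases y hy with ⟨k', γ', rfl⟩ | ⟨b', K', hb'⟩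
    · have hk : k = k' := by
        apply ofNat_inj
        intro n
        have h1 := h n
        rw [T_iter, T_iter] at h1
        exact add_left_cancel (a := (0 : Fin (P n))) h1
      subst hk
      exact ⟨k, γ, γ', 0, fun i _ => ⟨wg_iter_symbol _ _ _, wg_iter_symbol _ _ _⟩⟩
    · exact ⟨k, γ, fun _ => b', K', fun i hi => ⟨wg_iter_symbol _ _ _, hb' i hi⟩⟩
  · rcases S1_cases y hy with ⟨k', γ', rfl⟩ | ⟨b', K', hb'⟩
    · exact ⟨k', fun _ => b, γ', K, fun i hi => ⟨hb i hi, wg_iter_symbol _ _ _⟩⟩
    · exact ⟨0, fun _ => b, fun _ => b', max K K', fun i hi =>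
        ⟨hb i ((le_max_left _ _).trans hi), hb' i ((le_max_right _ _).trans hi)⟩⟩

lemma orb_lt_two_iff {S : Set W} (hS : ∀ w ∈ S, T w ∈ S) (x y : S) (k : ℕ) :
    orbDist (fS hS) (tip x) (tip y) k < 2 ↔ ((x : W) k).1 = ((y : W) k).1 := by
  rw [orbDist_tip]
  constructor
  · intro h
    by_contra hne
    have : dist (T^[k] (x : W)) (T^[k] (y : W)) = 1 := by
      apply dist_symbol_ne
      rw [T_iter_symbol, T_iter_symbol]
      exact hne
    rw [this] at h
    linarith
  · intro h
    have : dist (T^[k] (x : W)) (T^[k] (y : W)) ≤ 1 / 2 := by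
      apply dist_symbol_eq
      rw [T_iter_symbol, T_iter_symbol]
      exact h
    linarith

lemma count_bound {γ γ' : ℕ → Bool} {j : ℕ} (hj : γ j ≠ γ' j) (k K : ℕ) (A : ℕ → Prop)
    [DecidablePred A] (hA : ∀ i ≥ K, A i → γ (ix (i + k)) = γ' (ix (i + k))) :
    ∃ C : ℕ, 0 < C ∧ ∃ N₀, ∀ n ≥ N₀,
      C * ((Finset.range (n + 1)).filter A).card + n ≤ C * (K + k + n + 1) := by
  obtain ⟨C, hC, N₀, hN₀⟩ := dis_lower hj
  refine ⟨C, hC, N₀, fun n hn => ?_⟩
  have h1 := hN₀ (n + 1 + k) (by omega)
  have h2 : ((Finset.range (n + 1)).filter A).card + dis γ γ' (n + 1 + k) ≤ K + k + n + 1 := by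
    have h3 : ((Finset.range (n + 1)).filter A).card ≤
        K + ((Finset.Ico k (n + 1 + k)).filter (fun t => γ (ix t) = γ' (ix t))).card := by
      have h4 : (Finset.range (n + 1)).filter A ⊆ Finset.range K ∪
          (Finset.range (n + 1)).filter (fun i => γ (ix (i + k)) = γ' (ix (i + k))) := by
        intro i hi
        rw [Finset.mem_filter] at hi
        rw [Finset.mem_union, Finset.mem_filter, Finset.mem_range (m := i) (n := K)]
        rcases Nat.lt_or_ge i K with h5 | h5
        · exact Or.inl h5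
        · exact Or.inr ⟨hi.1, hA i h5 hi.2⟩
      refine (Finset.card_le_card h4).trans ((Finset.card_union_le _ _).trans ?_)
      rw [Finset.card_range]
      refine Nat.add_le_add_left ?_ _
      refine Finset.card_le_card_of_injOn (fun i => i + k) ?_ ?_
      · intro i hi
        rw [Finset.mem_coe, Finset.mem_filter, Finset.mem_range] at hi
        rw [Finset.mem_coe, Finset.mem_filter, Finset.mem_Ico]
        refine ⟨⟨?_, ?_⟩, hi.2⟩
        · show k ≤ i + k
          omega
        · show i + k < n + 1 + k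
          omega
      · intro a _ b _ hab
        simpa using hab
    have h5 : dis γ γ' (n + 1 + k) ≤
        k + ((Finset.Ico k (n + 1 + k)).filter (fun t => γ (ix t) ≠ γ' (ix t))).card := by
      unfold dis
      have h6 : (Finset.range (n + 1 + k)).filter (fun t => γ (ix t) ≠ γ' (ix t)) ⊆
          Finset.range k ∪
            (Finset.Ico k (n + 1 + k)).filter (fun t => γ (ix t) ≠ γ' (ix t)) := by
        intro i hi
        rw [Finset.mem_filter, Finset.mem_range] at hi
        rw [Finset.mem_union, Finset.mem_filter, Finset.mem_range, Finset.mem_Ico]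
        rcases Nat.lt_or_ge i k with h7 | h7
        · exact Or.inl h7
        · exact Or.inr ⟨⟨h7, hi.1⟩, hi.2⟩
      refine (Finset.card_le_card h6).trans ((Finset.card_union_le _ _).trans ?_)
      rw [Finset.card_range]
    have h8 := Finset.card_filter_add_card_filter_not (s := Finset.Ico k (n + 1 + k))
      (fun t => γ (ix t) = γ' (ix t))
    rw [Nat.card_Ico] at h8
    simp only [ne_eq] at h5
    omega
  have h3 := Nat.mul_le_mul_left C h2
  rw [mul_add] at h3
  omega

lemma S1_no_DC2 (x y : S1) : ¬ IsDC2Pair (fS S1_inv) (tip x) (tip y) := by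
  by_cases h : ∃ n, ((x : W) n).2 ≠ ((y : W) n).2
  · obtain ⟨n, hn⟩ := h
    have hcomp : CompactSpace (Cone S1) := (cone_dendrite (Y := S1)).1
    refine not_DC2_of_pos (c := 2 * (1 / 2) ^ (n + 1)) (by positivity)
      (Eventually.of_forall fun k => ?_)
    rw [orbDist_tip]
    exact mul_le_mul_of_nonneg_left (dist_odometer _ _ n hn k) (by norm_num)
  · push Not at h
    obtain ⟨k, γ, γ', K, hK⟩ := tails x y x.2 y.2 h
    by_cases hg : γ = γ'
    · refine not_DC2_of_zero ?_
      filter_upwards [eventually_ge_atTop K] with i hi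
      rw [orbDist_tip]
      have : dist (T^[i] (x : W)) (T^[i] (y : W)) = 0 := by
        rw [dist_eq_zero]
        funext n
        rw [T_iter, T_iter, h n]
        congr 1
        obtain ⟨h1, h2⟩ := hK (n + i) (by omega)
        rw [h1, h2, hg]
      rw [this, mul_zero]
    · obtain ⟨j, hj⟩ := Function.ne_iff.mp hg
      rintro ⟨-, h1, -⟩
      obtain ⟨C, hC, N₀, hN₀⟩ := count_bound hj k K
        (fun i => orbDist (fS S1_inv) (tip x) (tip y) i < 2) (by
          intro i hi h2
          obtain ⟨h3, h4⟩ := hK i hi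
          have h5 := (orb_lt_two_iff S1_inv x y i).mp h2
          rw [← h3, ← h4, h5])
      have hcomp : CompactSpace (Cone S1) := (cone_dendrite (Y := S1)).1
      -- the diameter is at least two
      have hdiam : 2 ≤ Metric.diam (univ : Set (Cone S1)) := by
        obtain ⟨i, hi⟩ : ∃ i, ¬ orbDist (fS S1_inv) (tip x) (tip y) i < 2 := by
          by_contra hne
          push Not at hne
          have h2 := hN₀ (max N₀ (C * (K + k + 1))) (le_max_left _ _)
          rw [Finset.filter_true_of_mem (fun i _ => hne i), Finset.card_range] at h2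
          have h3 := le_max_right N₀ (C * (K + k + 1))
          obtain ⟨n, hn⟩ : ∃ n, n = max N₀ (C * (K + k + 1)) := ⟨_, rfl⟩
          rw [← hn] at h2 h3
          have e1 : C * (K + k + n + 1) = C * (K + k) + C * (n + 1) := by ring
          have e2 : C * (K + k + 1) = C * (K + k) + C := by ring
          omega
        exact (not_lt.mp hi).trans (orbDist_le_diam _ _ _ _)
      have h2 := h1 2 two_pos hdiam
      have hCr : (0 : ℝ) < C := by exact_mod_cast hC
      have h3 : upperF (orbDist (fS S1_inv) (tip x) (tip y)) 2 ≤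
          ((1 - 1 / (2 * C) : ℝ) : EReal) := by
        refine upperF_le ?_
        filter_upwards [eventually_ge_atTop N₀,
          tendsto_natCast_atTop_atTop.eventually_ge_atTop (2 * C * (K + k + 1) : ℝ),
          eventually_ge_atTop 1] with n hn1 hn2 hn3
        have hn0 : (0 : ℝ) < n := by exact_mod_cast hn3
        have h4 : (C : ℝ) * (((Finset.range (n + 1)).filter
            (fun i => orbDist (fS S1_inv) (tip x) (tip y) i < 2)).card : ℝ) + n ≤
            C * (K + k + n + 1) := by exact_mod_cast hN₀ n hn1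
        unfold cnt
        rw [div_le_iff₀ hn0]
        have h5 : (C : ℝ) * (K + k + 1) ≤ n / 2 := by linarith
        have h6 : (C : ℝ) * (((Finset.range (n + 1)).filter
            (fun i => orbDist (fS S1_inv) (tip x) (tip y) i < 2)).card : ℝ) ≤ C * n - n / 2 := by
          have e : (C : ℝ) * (K + k + n + 1) = C * (K + k + 1) + C * n := by ring
          linarith
        have h7 : (C : ℝ) * ((1 - 1 / (2 * C)) * n) = C * n - n / 2 := by
          field_simp
        rw [← h7] at h6
        exact le_of_mul_le_mul_left h6 hCr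
      rw [h2] at h3
      have h4 : (1 : ℝ) ≤ 1 - 1 / (2 * C) := by exact_mod_cast h3
      have h5 : (0 : ℝ) < 1 / (2 * C) := by positivity
      linarith

end Pool.Agent.Q187.DC
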