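import Pool.Agent.Q187.DC.B2

/-!
# The uncountable DC3 set
-/

set_option autoImplicit false

open Set Filter Topology

namespace Pool.Agent.Q187.DC

lemma N_bound (i : ℕ) :
    12 * Nat.count (fun r => bb i r = true) (P i) * 4 ^ i + P i ≤ P i * 4 ^ i := by
  induction i with
  | zero =>
    have : Nat.count (fun r => bb 0 r = true) (P 0) = 0 := by
      rw [Nat.count_eq_card_filter_range, Finset.card_eq_zero, Finset.filter_eq_empty_iff]
      intro r _
      simp [bb]
    rw [this]; simp
  | succ i ih =>
    obtain ⟨N, hN⟩ : ∃ N, N = Nat.count (fun r => bb i r = true) (P i) := ⟨_, rfl⟩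
    rw [← hN] at ih
    have hl := lam_ge i
    have h1 : Nat.count (fun r => bb (i + 1) r = true) (P (i + 1)) ≤ lam i * N + P i := by
      rw [P_succ, Nat.count_eq_card_filter_range]
      have hsub : (Finset.range (lam i * P i)).filter (fun r => bb (i + 1) r = true) ⊆
          (Finset.range (lam i * P i)).filter (fun r => bb i r = true) ∪
          Finset.Ico ((lam i - 1) * P i) (lam i * P i) := by
        intro r hr
        rw [Finset.mem_filter, Finset.mem_range] at hr
        rw [Finset.mem_union, Finset.mem_filter, Finset.mem_range, Finset.mem_Ico]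
        by_cases hb : bb i r = true
        · exact Or.inl ⟨hr.1, hb⟩
        · right
          have h2 := hr.2
          rw [bb_succ] at h2
          have hb' : bb i r = false := by simpa using hb
          rw [hb', Bool.false_xor, decide_eq_true_eq] at h2
          have h3 : r / P i < lam i := (Nat.div_lt_iff_lt_mul (P_pos i)).mpr hr.1
          rw [Nat.mod_eq_of_lt h3] at h2
          refine ⟨?_, hr.1⟩
          rw [← h2]
          exact Nat.div_mul_le_self _ _
      refine (Finset.card_le_card hsub).trans ((Finset.card_union_le _ _).trans ?_)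
      rw [← Nat.count_eq_card_filter_range, count_periodic, ← hN, Nat.card_Ico, ← Nat.sub_mul]
      · have : lam i - (lam i - 1) = 1 := by omega
        rw [this, one_mul]
      · intro t
        have := bb_add_mul i i t 1 le_rfl
        rw [mul_one] at this
        rw [this]
    obtain ⟨a, ha⟩ : ∃ a, a = 4 ^ i := ⟨_, rfl⟩
    have hla : lam i = 16 * a := by rw [ha]; rfl
    rw [← ha] at ih
    have e4 : 4 ^ (i + 1) = 4 * a := by rw [ha, pow_succ, mul_comm]
    rw [e4, P_succ, hla]
    rw [P_succ, hla] at h1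
    calc 12 * Nat.count (fun r => bb (i + 1) r = true) (16 * a * P i) * (4 * a) + 16 * a * P i
        ≤ 12 * (16 * a * N + P i) * (4 * a) + 16 * a * P i :=
          Nat.add_le_add_right (Nat.mul_le_mul_right _ (Nat.mul_le_mul_left _ h1)) _
      _ = 64 * a * (12 * N * a + P i) := by ring
      _ ≤ 64 * a * (P i * a) := Nat.mul_le_mul_left _ ih
      _ = 16 * a * P i * (4 * a) := by ring

lemma N_le (i : ℕ) : 12 * Nat.count (fun r => bb i r = true) (P i) ≤ P i := by
  have h := N_bound i
  have h1 : 0 < 4 ^ i := by positivity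
  exact Nat.le_of_mul_le_mul_right (by omega :
    12 * Nat.count (fun r => bb i r = true) (P i) * 4 ^ i ≤ P i * 4 ^ i) h1

/-- Most symbols up to time `P (2 m + 1)` are equal to the sign. -/
lemma dis_le {fl : ℕ → Bool} (hfl : ∀ m, fl (2 * m) = false) (m : ℕ) :
    12 * ((Finset.range (P (2 * m + 1) - P (2 * m))).filter
      (fun k => uu fl k ≠ bb (2 * m + 1) (zz fl (2 * m + 1)))).card ≤ P (2 * m + 1) := by
  refine le_trans (Nat.mul_le_mul_left _ ?_) (N_le (2 * m + 1))
  rw [Nat.count_eq_card_filter_range]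
  refine Finset.card_le_card_of_injOn (fun k => zz fl (2 * m + 1) + k) ?_ ?_
  · intro k hk
    rw [Finset.mem_coe, Finset.mem_filter, Finset.mem_range] at hk
    have h1 := zz_even_lt hfl hk.1
    have h2 := hk.2
    rw [uu_eq hfl h1] at h2
    rw [Finset.mem_coe, Finset.mem_filter, Finset.mem_range]
    refine ⟨h1, ?_⟩
    revert h2
    cases bb (2 * m + 1) (zz fl (2 * m + 1) + k) <;> cases bb (2 * m + 1) (zz fl (2 * m + 1)) <;>
      simp
  · intro a _ b _ hab
    simpa using hab

/-- The digits for a given sequence of signs. -/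
def flip (s : ℕ → Bool) (i : ℕ) : Bool :=
  if i % 2 = 1 then xor (s (i / 2)) (s (i / 2 + 1)) else false

lemma flip_even (s : ℕ → Bool) (m : ℕ) : flip s (2 * m) = false := by
  unfold flip
  rw [if_neg (by omega)]

lemma flip_odd (s : ℕ → Bool) (m : ℕ) : flip s (2 * m + 1) = xor (s m) (s (m + 1)) := by
  unfold flip
  rw [if_pos (by omega)]
  have : (2 * m + 1) / 2 = m := by omega
  rw [this]

lemma sign_eq {s : ℕ → Bool} (hs : s 0 = false) (m : ℕ) :
    bb (2 * m + 1) (zz (flip s) (2 * m + 1)) = s m := by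
  induction m with
  | zero =>
    have h := bb_zz_succ (fl := flip s) (i := 0) (k := 0) (by simpa using zz_lt (flip s) 0)
    rw [add_zero] at h
    rw [mul_zero, h, hs]
    have : flip s 0 = false := flip_even s 0
    rw [this]
    rfl
  | succ m ih =>
    have h1 := bb_zz_succ (fl := flip s) (i := 2 * (m + 1)) (k := 0)
      (by simpa using zz_lt (flip s) (2 * (m + 1)))
    have h2 := bb_zz_succ (fl := flip s) (i := 2 * m + 1) (k := 0)
      (by simpa using zz_lt (flip s) (2 * m + 1))
    rw [add_zero, add_zero] at h1 h2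
    rw [h1, flip_even, Bool.xor_false]
    have e : 2 * (m + 1) = 2 * m + 1 + 1 := by ring
    rw [e, h2, ih, flip_odd]
    cases s m <;> cases s (m + 1) <;> rfl

instance : CompactSpace S2 := isCompact_iff_compactSpace.mp S2_closed.isCompact

instance : Nonempty S2 := ⟨⟨pp (flip fun _ => false), pp_mem (flip_even _)⟩⟩

/-- The point of the cone for a sequence of signs. -/
noncomputable def qq (s : ℕ → Bool) : Cone S2 := tip ⟨pp (flip s), pp_mem (flip_even s)⟩

lemma orbDist_lt_iff (s s' : ℕ → Bool) {δ : ℝ} (h1 : 1 < δ) (h2 : δ ≤ 2) (k : ℕ) :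
    orbDist (fS S2_inv) (qq s) (qq s') k < δ ↔ uu (flip s) k = uu (flip s') k := by
  unfold qq
  rw [orbDist_tip]
  simp only
  constructor
  · intro h
    by_contra hne
    have : dist (T^[k] (pp (flip s))) (T^[k] (pp (flip s'))) = 1 := by
      apply dist_symbol_ne
      rw [T_iter_symbol, T_iter_symbol]
      exact hne
    rw [this] at h
    linarith
  · intro h
    have : dist (T^[k] (pp (flip s))) (T^[k] (pp (flip s'))) ≤ 1 / 2 := by
      apply dist_symbol_eq
      rw [T_iter_symbol, T_iter_symbol]
      exact h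
    linarith

lemma P_sub_bound (m : ℕ) : 15 * P (2 * m + 1) ≤ 16 * (P (2 * m + 1) - P (2 * m)) ∧
    15 ≤ P (2 * m + 1) - P (2 * m) := by
  have h1 := P_pos (2 * m)
  have h3 : 16 * P (2 * m) ≤ P (2 * m + 1) := by
    rw [P_succ]; exact Nat.mul_le_mul_right _ (lam_ge (2 * m))
  omega

lemma agree_many {s s' : ℕ → Bool} (hs : s 0 = false) (hs' : s' 0 = false) {m : ℕ}
    (h : s m = s' m) : 4 * (P (2 * m + 1) - P (2 * m)) ≤
      5 * ((Finset.range (P (2 * m + 1) - P (2 * m))).filter
        (fun k => uu (flip s) k = uu (flip s') k)).card := by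
  have d1 := dis_le (flip_even s) m
  have d2 := dis_le (flip_even s') m
  rw [sign_eq hs] at d1
  rw [sign_eq hs'] at d2
  obtain ⟨b1, b2⟩ := P_sub_bound m
  obtain ⟨n, hn⟩ : ∃ n, n = P (2 * m + 1) - P (2 * m) := ⟨_, rfl⟩
  rw [← hn] at d1 d2 b1 b2 ⊢
  have h1 : Finset.range n ⊆ (Finset.range n).filter (fun k => uu (flip s) k = uu (flip s') k) ∪
      ((Finset.range n).filter (fun k => uu (flip s) k ≠ s m) ∪
        (Finset.range n).filter (fun k => uu (flip s') k ≠ s' m)) := by
    intro k hk
    simp only [Finset.mem_union, Finset.mem_filter]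
    by_cases h2 : uu (flip s) k = s m
    · by_cases h3 : uu (flip s') k = s' m
      · exact Or.inl ⟨hk, by rw [h2, h3, h]⟩
      · exact Or.inr (Or.inr ⟨hk, h3⟩)
    · exact Or.inr (Or.inl ⟨hk, h2⟩)
  have h2 := (Finset.card_le_card h1).trans ((Finset.card_union_le _ _).trans
    (Nat.add_le_add_left (Finset.card_union_le _ _) _))
  rw [Finset.card_range] at h2
  omega

lemma agree_few {s s' : ℕ → Bool} (hs : s 0 = false) (hs' : s' 0 = false) {m : ℕ}
    (h : s m ≠ s' m) : 5 * ((Finset.range (P (2 * m + 1) - P (2 * m))).filter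
        (fun k => uu (flip s) k = uu (flip s') k)).card ≤ P (2 * m + 1) - P (2 * m) := by
  have d1 := dis_le (flip_even s) m
  have d2 := dis_le (flip_even s') m
  rw [sign_eq hs] at d1
  rw [sign_eq hs'] at d2
  obtain ⟨b1, b2⟩ := P_sub_bound m
  obtain ⟨n, hn⟩ : ∃ n, n = P (2 * m + 1) - P (2 * m) := ⟨_, rfl⟩
  rw [← hn] at d1 d2 b1 b2 ⊢
  have h1 : (Finset.range n).filter (fun k => uu (flip s) k = uu (flip s') k) ⊆
      ((Finset.range n).filter (fun k => uu (flip s) k ≠ s m) ∪
        (Finset.range n).filter (fun k => uu (flip s') k ≠ s' m)) := by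
    intro k hk
    simp only [Finset.mem_union, Finset.mem_filter] at hk ⊢
    by_cases h2 : uu (flip s) k = s m
    · by_cases h3 : uu (flip s') k = s' m
      · exact absurd (by rw [← h2, ← h3]; exact hk.2) h
      · exact Or.inr ⟨hk.1, h3⟩
    · exact Or.inl ⟨hk.1, h2⟩
  have h2 := (Finset.card_le_card h1).trans (Finset.card_union_le _ _)
  omega

lemma DC3_pair {s s' : ℕ → Bool} (hs : s 0 = false) (hs' : s' 0 = false)
    (hag : ∃ᶠ m in atTop, s m = s' m) (hdi : ∃ᶠ m in atTop, s m ≠ s' m) :
    IsDC3Pair (fS S2_inv) (qq s) (qq s') := by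
  have htend : Tendsto (fun m => P (2 * m + 1) - P (2 * m)) atTop atTop :=
    tendsto_atTop_mono (fun m => (lt_P_sub m).le) tendsto_id
  -- a time of disagreement
  obtain ⟨k, hk⟩ : ∃ k, uu (flip s) k ≠ uu (flip s') k := by
    obtain ⟨m, hm⟩ := hdi.exists
    by_contra hne
    push Not at hne
    have h1 := agree_few hs hs' hm
    have h2 : (Finset.range (P (2 * m + 1) - P (2 * m))).filter
        (fun k => uu (flip s) k = uu (flip s') k) = Finset.range (P (2 * m + 1) - P (2 * m)) :=
      Finset.filter_true_of_mem fun k _ => hne k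
    rw [h2, Finset.card_range] at h1
    have := (P_sub_bound m).2
    omega
  have hk2 : 2 ≤ orbDist (fS S2_inv) (qq s) (qq s') k := by
    by_contra hne
    push Not at hne
    exact hk ((orbDist_lt_iff s s' one_lt_two le_rfl k).mp hne)
  have hcomp : CompactSpace (Cone S2) := (cone_dendrite (Y := S2)).1
  refine ⟨?_, 1, 2, zero_le_one, one_lt_two, hk2.trans (orbDist_le_diam _ _ _ _), ?_⟩
  · intro h
    rw [h] at hk2
    unfold orbDist at hk2
    rw [dist_self] at hk2
    linarith
  · intro δ h1 h2
    have hcnt : ∀ n, cnt (orbDist (fS S2_inv) (qq s) (qq s')) δ n =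
        (((Finset.range (n + 1)).filter (fun k => uu (flip s) k = uu (flip s') k)).card : ℝ) / n := by
      intro n
      unfold cnt
      congr 3
      ext k
      rw [Finset.mem_filter, Finset.mem_filter, orbDist_lt_iff s s' h1 h2.le]
    have hlow : lowerF (orbDist (fS S2_inv) (qq s) (qq s')) δ ≤ ((1 / 3 : ℝ) : EReal) := by
      refine lowerF_le (htend.frequently (hdi.mono fun m hm => ?_))
      have h3 := agree_few hs hs' hm
      have h4 := (P_sub_bound m).2
      obtain ⟨n, hn⟩ : ∃ n, n = P (2 * m + 1) - P (2 * m) := ⟨_, rfl⟩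
      rw [← hn] at h3 h4 ⊢
      have hn0 : (0 : ℝ) < n := by exact_mod_cast (by omega : 0 < n)
      rw [hcnt, div_le_iff₀ hn0]
      have h5 : ((Finset.range (n + 1)).filter (fun k => uu (flip s) k = uu (flip s') k)).card ≤
          ((Finset.range n).filter (fun k => uu (flip s) k = uu (flip s') k)).card + 1 := by
        rw [Finset.range_add_one, Finset.filter_insert]
        split_ifs
        · exact Finset.card_insert_le _ _
        · omega
      have h6 : 15 * ((Finset.range (n + 1)).filter
          (fun k => uu (flip s) k = uu (flip s') k)).card ≤ 5 * n := by omega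
      have h7 : (15 : ℝ) * (((Finset.range (n + 1)).filter
          (fun k => uu (flip s) k = uu (flip s') k)).card : ℝ) ≤ 5 * n := by exact_mod_cast h6
      linarith
    have hupp : ((4 / 5 : ℝ) : EReal) ≤ upperF (orbDist (fS S2_inv) (qq s) (qq s')) δ := by
      refine le_upperF (htend.frequently (hag.mono fun m hm => ?_))
      have h3 := agree_many hs hs' hm
      have h4 := (P_sub_bound m).2
      obtain ⟨n, hn⟩ : ∃ n, n = P (2 * m + 1) - P (2 * m) := ⟨_, rfl⟩
      rw [← hn] at h3 h4 ⊢
      have hn0 : (0 : ℝ) < n := by exact_mod_cast (by omega : 0 < n)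
      rw [hcnt, le_div_iff₀ hn0]
      have h5 : ((Finset.range n).filter (fun k => uu (flip s) k = uu (flip s') k)).card ≤
          ((Finset.range (n + 1)).filter (fun k => uu (flip s) k = uu (flip s') k)).card :=
        Finset.card_le_card (Finset.filter_subset_filter _ (Finset.range_subset_range.mpr
          (by omega)))
      have h6 : 4 * n ≤ 5 * ((Finset.range (n + 1)).filter
          (fun k => uu (flip s) k = uu (flip s') k)).card := by omega
      have h7 : (4 : ℝ) * n ≤ 5 * (((Finset.range (n + 1)).filter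
          (fun k => uu (flip s) k = uu (flip s') k)).card : ℝ) := by exact_mod_cast h6
      linarith
    have h13 : ((1 / 3 : ℝ) : EReal) < ((4 / 5 : ℝ) : EReal) := by
      exact_mod_cast (by norm_num : (1 / 3 : ℝ) < 4 / 5)
    exact hlow.trans_lt (h13.trans_le hupp)

/-- Repetition of the terms of a sequence. -/
def sq (t : ℕ → Bool) (m : ℕ) : Bool :=
  if (Nat.unpair m).1 = 0 then false else t ((Nat.unpair m).1 - 1)

lemma sq_zero (t : ℕ → Bool) : sq t 0 = false := by
  unfold sq
  simp

lemma sq_agree (t t' : ℕ → Bool) : ∃ᶠ m in atTop, sq t m = sq t' m := by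
  rw [frequently_atTop]
  intro N
  refine ⟨Nat.pair 0 N, Nat.right_le_pair 0 N, ?_⟩
  unfold sq
  simp

lemma sq_dis {t t' : ℕ → Bool} (h : t ≠ t') : ∃ᶠ m in atTop, sq t m ≠ sq t' m := by
  obtain ⟨j, hj⟩ := Function.ne_iff.mp h
  rw [frequently_atTop]
  intro N
  refine ⟨Nat.pair (j + 1) N, Nat.right_le_pair _ N, ?_⟩
  unfold sq
  simpa using hj

lemma uncountable_seq : ¬ Countable (ℕ → Bool) := by
  intro h
  obtain ⟨f, hf⟩ := exists_surjective_nat (ℕ → Bool)
  obtain ⟨n, hn⟩ := hf (fun k => !(f k k))
  have := congrFun hn n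
  simp at this

theorem main2 : IsDendrite (Cone S2) ∧ Continuous (fS S2_inv) ∧
    (∃ D : Set (Cone S2), ¬ D.Countable ∧ ∀ x ∈ D, ∀ y ∈ D, x ≠ y →
      IsDC3Pair (fS S2_inv) x y) ∧ ∀ x y, ¬ IsLYPair (fS S2_inv) x y := by
  refine ⟨cone_dendrite, coneMap_continuous _ _, ⟨range fun t => qq (sq t), ?_, ?_⟩, ?_⟩
  · intro hc
    have hinj : Function.Injective (fun t => qq (sq t)) := by
      intro t t' h
      by_contra hne
      exact (DC3_pair (sq_zero t) (sq_zero t') (sq_agree t t') (sq_dis hne)).1 h
    have : Countable (range fun t => qq (sq t)) := hc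
    exact uncountable_seq ((Equiv.ofInjective _ hinj).countable_iff.mpr this)
  · rintro _ ⟨t, rfl⟩ _ ⟨t', rfl⟩ hne
    have htt : t ≠ t' := fun h => hne (by rw [h])
    exact DC3_pair (sq_zero t) (sq_zero t') (sq_agree t t') (sq_dis htt)
  · intro x y
    rcases trichotomy (TS S2_inv) (TS_dist S2_inv) x y with ⟨a, b, rfl, rfl⟩ | h | h
    · rcases S2_pairs a b a.2 b.2 with h | ⟨c, hc, h⟩
      · refine not_LY_of_zero (h.mono fun k hk => ?_)
        rw [orbDist_tip, hk, mul_zero]
      · refine not_LY_of_pos (c := 2 * c) (by linarith) (h.mono fun k hk => ?_)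
        rw [orbDist_tip]
        linarith
    · exact not_LY_of_zero h
    · exact not_LY_of_pos one_pos (h.mono fun k hk => hk.ge)

end Pool.Agent.Q187.DC
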