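import Pool.Agent.Q187.DC.B1b
import Pool.Agent.Q187.DC.B2b

/-!
# The uncountable DC2½ set
-/

set_option autoImplicit false

open Set Filter Topology

namespace Pool.Agent.Q187.DC

/-- Two sequences differ at the index shown by the cell `2 e`. -/
def pd (γ γ' : ℕ → Bool) (e : ℕ) : Prop := γ (padicValNat 2 (e + 1)) ≠ γ' (padicValNat 2 (e + 1))

instance (γ γ' : ℕ → Bool) : DecidablePred (pd γ γ') := fun e => by unfold pd; infer_instance

lemma val_shift {a k : ℕ} (hk : k + 1 < 2 ^ a) :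
    padicValNat 2 (2 ^ a + k + 1) = padicValNat 2 (k + 1) := by
  obtain ⟨v, m, ⟨s, hs⟩, h⟩ := Nat.exists_eq_two_pow_mul_odd (n := k + 1) (by omega)
  have h1 : 2 ^ v ≤ k + 1 := by
    rw [h, hs]
    exact Nat.le_mul_of_pos_right _ (by omega)
  have h2 : v < a := (Nat.pow_lt_pow_iff_right (by norm_num : 1 < 2)).mp (h1.trans_lt hk)
  obtain ⟨u, rfl⟩ : ∃ u, a = v + 1 + u := ⟨a - v - 1, by omega⟩
  have e : 2 ^ (v + 1 + u) + k + 1 = 2 ^ v * (2 * (2 ^ u + s) + 1) := by
    rw [add_assoc, h, hs, pow_add, pow_add]; ring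
  rw [e, val_odd, h, hs, val_odd]

lemma E_succ (γ γ' : ℕ → Bool) (a : ℕ) :
    Nat.count (pd γ γ') (2 ^ (a + 1)) ≤ 2 * Nat.count (pd γ γ') (2 ^ a) + 1 ∧
      2 * Nat.count (pd γ γ') (2 ^ a) ≤ Nat.count (pd γ γ') (2 ^ (a + 1)) + 1 := by
  have e : 2 ^ (a + 1) = 2 ^ a + 2 ^ a := by rw [pow_succ]; ring
  rw [e, Nat.count_add]
  obtain ⟨m, hm⟩ : ∃ m, 2 ^ a = m + 1 := ⟨2 ^ a - 1, by
    have : 0 < 2 ^ a := by positivity
    omega⟩
  have h1 : Nat.count (fun k => pd γ γ' (2 ^ a + k)) m = Nat.count (pd γ γ') m := by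
    rw [Nat.count_eq_card_filter_range, Nat.count_eq_card_filter_range]
    congr 1
    refine Finset.filter_congr fun k hk => ?_
    rw [Finset.mem_range] at hk
    unfold pd
    rw [val_shift (by omega)]
  have h2 : Nat.count (fun k => pd γ γ' (2 ^ a + k)) (2 ^ a) =
      Nat.count (fun k => pd γ γ' (2 ^ a + k)) m + if pd γ γ' (2 ^ a + m) then 1 else 0 := by
    conv_lhs => rw [hm, Nat.count_succ]
    rw [hm]
  have h3 : Nat.count (pd γ γ') (2 ^ a) = Nat.count (pd γ γ') m + if pd γ γ' m then 1 else 0 := by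
    rw [hm, Nat.count_succ]
  rw [h2, h1, h3]
  split_ifs <;> omega

lemma E_bounds (γ γ' : ℕ → Bool) (a k : ℕ) :
    Nat.count (pd γ γ') (2 ^ (a + k)) + 1 ≤ 2 ^ k * (Nat.count (pd γ γ') (2 ^ a) + 1) ∧
      2 ^ k * Nat.count (pd γ γ') (2 ^ a) + 1 ≤ Nat.count (pd γ γ') (2 ^ (a + k)) + 2 ^ k := by
  induction k with
  | zero => simp
  | succ k ih =>
    obtain ⟨h1, h2⟩ := ih
    obtain ⟨h3, h4⟩ := E_succ γ γ' (a + k)
    rw [← add_assoc]
    obtain ⟨x, hx⟩ : ∃ x, x = Nat.count (pd γ γ') (2 ^ a) := ⟨_, rfl⟩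
    obtain ⟨y, hy⟩ : ∃ y, y = Nat.count (pd γ γ') (2 ^ (a + k)) := ⟨_, rfl⟩
    obtain ⟨z, hz⟩ : ∃ z, z = Nat.count (pd γ γ') (2 ^ (a + k + 1)) := ⟨_, rfl⟩
    rw [← hx, ← hy] at h1 h2
    rw [← hy, ← hz] at h3 h4
    rw [← hx, ← hz]
    have e1 : 2 ^ (k + 1) * (x + 1) = 2 * (2 ^ k * (x + 1)) := by rw [pow_succ]; ring
    have e2 : 2 ^ (k + 1) * x = 2 * (2 ^ k * x) := by rw [pow_succ]; ring
    have e3 : 2 ^ (k + 1) = 2 * 2 ^ k := by rw [pow_succ]; ring
    rw [e1, e2, e3]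
    omega

lemma E_ge {γ γ' : ℕ → Bool} {j : ℕ} (hj : γ j ≠ γ' j) :
    9 ≤ Nat.count (pd γ γ') (2 ^ (j + 5)) := by
  have h1 : 2 ≤ Nat.count (pd γ γ') (2 ^ (j + 2)) := by
    rw [Nat.count_eq_card_filter_range]
    have hq : 0 < 2 ^ j := by positivity
    have e : 2 ^ (j + 2) = 4 * 2 ^ j := by rw [pow_add]; ring
    have h2 : ({2 ^ j - 1, 3 * 2 ^ j - 1} : Finset ℕ) ⊆
        (Finset.range (2 ^ (j + 2))).filter (pd γ γ') := by
      intro i hi
      rw [Finset.mem_insert, Finset.mem_singleton] at hi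
      rw [Finset.mem_filter, Finset.mem_range, e]
      rcases hi with rfl | rfl
      · refine ⟨by omega, ?_⟩
        unfold pd
        have e2 : 2 ^ j - 1 + 1 = 2 ^ j * (2 * 0 + 1) := by omega
        rw [e2, val_odd]
        exact hj
      · refine ⟨by omega, ?_⟩
        unfold pd
        have e2 : 3 * 2 ^ j - 1 + 1 = 2 ^ j * (2 * 1 + 1) := by omega
        rw [e2, val_odd]
        exact hj
    have h3 := Finset.card_le_card h2
    rwa [Finset.card_pair (by omega)] at h3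
  have h2 := (E_bounds γ γ' (j + 2) 3).2
  have e : j + 2 + 3 = j + 5 := by ring
  rw [e] at h2
  omega

lemma lam_eq (M : ℕ) : lam M = 2 * 2 ^ (2 * M + 3) := by
  unfold lam
  rw [pow_add, pow_mul]
  norm_num
  ring

lemma even_count {γ γ' : ℕ → Bool} (h0 : γ 0 = γ' 0) {M : ℕ} (hM : M % 2 = 0) :
    2 * P M * Nat.count (pd γ γ') (2 ^ (2 * M + 3)) ≤ dis γ γ' (P (M + 1)) := by
  have hlam := lam_eq M
  rw [Nat.count_eq_card_filter_range]
  obtain ⟨Q, hQ⟩ : ∃ Q, Q = 2 ^ (2 * M + 3) := ⟨_, rfl⟩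
  rw [← hQ] at hlam ⊢
  have e : 2 * P M * ((Finset.range Q).filter (pd γ γ')).card =
      (((Finset.range Q).filter (pd γ γ')) ×ˢ (Finset.range (2 * P M))).card := by
    rw [Finset.card_product, Finset.card_range, mul_comm]
  rw [e]
  unfold dis
  have hP := P_pos M
  refine Finset.card_le_card_of_injOn (fun x => x.1 * (2 * P M) + x.2) ?_ ?_
  · rintro ⟨i, r⟩ hx
    rw [Finset.mem_coe, Finset.mem_product, Finset.mem_filter, Finset.mem_range,
      Finset.mem_range] at hx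
    obtain ⟨⟨h1, h2⟩, h3⟩ := hx
    simp only at h1 h2 h3
    rw [Finset.mem_coe, Finset.mem_filter, Finset.mem_range]
    have hi : 1 ≤ i := by
      rcases Nat.eq_zero_or_pos i with h | h
      · rw [h] at h2
        exact absurd h0 (by simpa [pd] using h2)
      · exact h
    constructor
    · show i * (2 * P M) + r < P (M + 1)
      rw [P_succ, hlam]
      calc i * (2 * P M) + r < i * (2 * P M) + 2 * P M := by omega
        _ = (i + 1) * (2 * P M) := by ring
        _ ≤ Q * (2 * P M) := Nat.mul_le_mul_right _ h1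
        _ = 2 * Q * P M := by ring
    · show γ (ix (i * (2 * P M) + r)) ≠ γ' (ix (i * (2 * P M) + r))
      obtain ⟨c, r', hc, hr', hcr⟩ : ∃ c r', c < 2 ∧ r' < P M ∧ r = c * P M + r' :=
        ⟨r / P M, r % P M, (Nat.div_lt_iff_lt_mul hP).mpr h3, Nat.mod_lt _ hP, by
          rw [mul_comm]; exact (Nat.div_add_mod r (P M)).symm⟩
      have e2 : i * (2 * P M) + r = (2 * i + c) * P M + r' := by rw [hcr]; ring
      rw [e2, ix_cell (by omega) (by omega) hr']
      have h4 : cellIx M (2 * i + c) = padicValNat 2 (i + 1) := by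
        unfold cellIx
        have e3 : (2 * i + c) / 2 = i := by omega
        rw [if_neg (by omega), e3]
      rw [h4]
      exact h2
  · rintro ⟨s, r⟩ hx ⟨s', r'⟩ hx' h
    rw [Finset.mem_coe, Finset.mem_product, Finset.mem_range] at hx hx'
    simp only at h hx hx'
    have hP2 : 0 < 2 * P M := by omega
    have h1 := congrArg (fun x => x / (2 * P M)) h
    have h2 := congrArg (fun x => x % (2 * P M)) h
    rw [mul_comm _ (2 * P M), mul_comm _ (2 * P M), Nat.mul_add_div hP2, Nat.mul_add_div hP2,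
      Nat.div_eq_of_lt hx.2, Nat.div_eq_of_lt hx'.2] at h1
    rw [mul_comm _ (2 * P M), mul_comm _ (2 * P M), Nat.mul_add_mod, Nat.mul_add_mod,
      Nat.mod_eq_of_lt hx.2, Nat.mod_eq_of_lt hx'.2] at h2
    have h3 : s = s' := by omega
    rw [h3, h2]

/-- The cells of odd level for which nothing is known. -/
def bad (γ γ' : ℕ → Bool) (d : ℕ) : Prop := d = 0 ∨ (d % 2 = 0 ∧ pd γ γ' (d / 2))

instance (γ γ' : ℕ → Bool) : DecidablePred (bad γ γ') := fun e => by unfold bad; infer_instance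

lemma bad_card (γ γ' : ℕ → Bool) (Q : ℕ) :
    ((Finset.range (2 * Q)).filter (bad γ γ')).card ≤ 1 + Nat.count (pd γ γ') Q := by
  rw [Nat.count_eq_card_filter_range]
  have h : (Finset.range (2 * Q)).filter (bad γ γ') ⊆
      {0} ∪ ((Finset.range Q).filter (pd γ γ')).image (fun i => 2 * i) := by
    intro d hd
    rw [Finset.mem_filter, Finset.mem_range] at hd
    rw [Finset.mem_union, Finset.mem_singleton, Finset.mem_image]
    rcases hd.2 with h1 | ⟨h1, h2⟩
    · exact Or.inl h1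
    · refine Or.inr ⟨d / 2, ?_, by omega⟩
      rw [Finset.mem_filter, Finset.mem_range]
      exact ⟨by omega, h2⟩
  refine (Finset.card_le_card h).trans ((Finset.card_union_le _ _).trans ?_)
  rw [Finset.card_singleton]
  exact Nat.add_le_add_left Finset.card_image_le _

lemma odd_count {γ γ' : ℕ → Bool} (h0 : γ 0 = γ' 0) {M : ℕ} (hM : M % 2 = 1) (w : ℕ)
    (B : ℕ → Prop) [DecidablePred B]
    (hB : ∀ t, (∀ i < w, γ (ix (i + t)) = γ' (ix (i + t))) → B t) :
    (lam M - (1 + Nat.count (pd γ γ') (2 ^ (2 * M + 3)))) * (P M - w) ≤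
      ((Finset.range (P (M + 1))).filter B).card := by
  have hlam := lam_eq M
  have hP := P_pos M
  have hb := bad_card γ γ' (2 ^ (2 * M + 3))
  rw [← hlam] at hb
  have hg := Finset.card_filter_add_card_filter_not (s := Finset.range (lam M)) (bad γ γ')
  rw [Finset.card_range] at hg
  have hg2 : lam M - (1 + Nat.count (pd γ γ') (2 ^ (2 * M + 3))) ≤
      ((Finset.range (lam M)).filter (fun d => ¬ bad γ γ' d)).card := by omega
  refine (Nat.mul_le_mul_right _ hg2).trans ?_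
  have e : ((Finset.range (lam M)).filter (fun d => ¬ bad γ γ' d)).card * (P M - w) =
      (((Finset.range (lam M)).filter (fun d => ¬ bad γ γ' d)) ×ˢ
        (Finset.range (P M - w))).card := by
    rw [Finset.card_product, Finset.card_range]
  rw [e]
  refine Finset.card_le_card_of_injOn (fun x => x.1 * P M + x.2) ?_ ?_
  · rintro ⟨d, r⟩ hx
    rw [Finset.mem_coe, Finset.mem_product, Finset.mem_filter, Finset.mem_range,
      Finset.mem_range] at hx
    obtain ⟨⟨h1, h2⟩, h3⟩ := hx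
    simp only at h1 h2 h3
    rw [Finset.mem_coe, Finset.mem_filter, Finset.mem_range]
    unfold bad at h2
    push Not at h2
    obtain ⟨h4, h5⟩ := h2
    constructor
    · show d * P M + r < P (M + 1)
      rw [P_succ]
      calc d * P M + r < d * P M + P M := by omega
        _ = (d + 1) * P M := by ring
        _ ≤ lam M * P M := Nat.mul_le_mul_right _ h1
    · show B (d * P M + r)
      apply hB
      intro i hi
      have e2 : i + (d * P M + r) = d * P M + (r + i) := by ring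
      rw [e2, ix_cell (by omega) h1 (by omega)]
      unfold cellIx
      split_ifs with h6
      · exact h0
      · have h7 := h5 (by omega)
        unfold pd at h7
        push Not at h7
        exact h7
  · rintro ⟨s, r⟩ hx ⟨s', r'⟩ hx' h
    rw [Finset.mem_coe, Finset.mem_product, Finset.mem_range] at hx hx'
    simp only at h hx hx'
    have h1 := congrArg (fun x => x / (P M)) h
    have h2 := congrArg (fun x => x % (P M)) h
    rw [mul_comm _ (P M), mul_comm _ (P M), Nat.mul_add_div hP, Nat.mul_add_div hP,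
      Nat.div_eq_of_lt (by omega), Nat.div_eq_of_lt (by omega)] at h1
    rw [mul_comm _ (P M), mul_comm _ (P M), Nat.mul_add_mod, Nat.mul_add_mod,
      Nat.mod_eq_of_lt (by omega), Nat.mod_eq_of_lt (by omega)] at h2
    have h3 : s = s' := by omega
    rw [h3, h2]

/-- The points of the DC2½ set. -/
noncomputable def rr (γ : ℕ → Bool) : Cone S1 := tip ⟨wg γ, wg_mem γ⟩

lemma rr_two (γ γ' : ℕ → Bool) (k : ℕ) :
    orbDist (fS S1_inv) (rr γ) (rr γ') k < 2 ↔ γ (ix k) = γ' (ix k) :=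
  orb_lt_two_iff S1_inv ⟨wg γ, wg_mem γ⟩ ⟨wg γ', wg_mem γ'⟩ k

lemma rr_window (γ γ' : ℕ → Bool) (w t : ℕ) (h : ∀ i < w, γ (ix (i + t)) = γ' (ix (i + t))) :
    orbDist (fS S1_inv) (rr γ) (rr γ') t ≤ 2 * (1 / 2) ^ w := by
  unfold rr
  rw [orbDist_tip]
  refine mul_le_mul_of_nonneg_left ?_ (by norm_num)
  rw [W_dist_le_iff]
  intro i hi
  rw [T_iter, T_iter]
  refine Prod.ext ?_ rfl
  exact h i hi

lemma le_P_even (m : ℕ) : m ≤ P (2 * m + 1) := by
  have := le_P (2 * m + 1)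
  omega

lemma le_P_odd (m : ℕ) : m ≤ P (2 * m + 1 + 1) := by
  have := le_P (2 * m + 1 + 1)
  omega

lemma DC2h_pair {γ γ' : ℕ → Bool} (h0 : γ 0 = γ' 0) (hne : γ ≠ γ') :
    IsDC2hPair (fS S1_inv) (rr γ) (rr γ') := by
  obtain ⟨j, hj⟩ := Function.ne_iff.mp hne
  obtain ⟨A, hA⟩ : ∃ A : ℕ, A = 2 ^ (j + 5) := ⟨_, rfl⟩
  have hA0 : 0 < A := by rw [hA]; positivity
  have hE := E_ge hj
  rw [← hA] at hE
  obtain ⟨E, hEE⟩ : ∃ E, E = Nat.count (pd γ γ') A := ⟨_, rfl⟩
  rw [← hEE] at hE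
  have hAr : (0 : ℝ) < A := by exact_mod_cast hA0
  have hEr : (9 : ℝ) ≤ E := by exact_mod_cast hE
  have hlow : lowerF (orbDist (fS S1_inv) (rr γ) (rr γ')) 2 ≤
      ((1 - (E - 2) / A : ℝ) : EReal) := by
    have htend : Tendsto (fun m => P (2 * m + 1)) atTop atTop :=
      tendsto_atTop_mono le_P_even tendsto_id
    refine lowerF_le (htend.frequently (Eventually.frequently ?_))
    filter_upwards [eventually_ge_atTop (j + 5)] with m hm
    obtain ⟨k, hk⟩ : ∃ k, 2 * (2 * m) + 3 = j + 5 + k := ⟨4 * m + 3 - (j + 5), by omega⟩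
    have h1 := even_count (γ := γ) (γ' := γ') h0 (M := 2 * m) (by omega)
    have h2 := (E_bounds γ γ' (j + 5) k).2
    have h3 : P (2 * m + 1) = 2 * (2 ^ (j + 5) * 2 ^ k) * P (2 * m) := by
      rw [P_succ, lam_eq, hk, pow_add]
    rw [hk] at h1
    rw [← hA] at h2 h3
    rw [← hEE] at h2
    have hPm := P_pos (2 * m)
    have h2k : 0 < 2 ^ k := by positivity
    have h4 := Finset.card_filter_add_card_filter_not (s := Finset.range (P (2 * m + 1) + 1))
      (fun t => γ (ix t) = γ' (ix t))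
    have h5 := dis_mono γ γ' (Nat.le_succ (P (2 * m + 1)))
    unfold dis at h5
    unfold dis at h1
    rw [Finset.card_range] at h4
    obtain ⟨n, hn⟩ : ∃ n, n = P (2 * m + 1) := ⟨_, rfl⟩
    rw [← hn] at h1 h3 h4 h5 ⊢
    obtain ⟨c, hc⟩ : ∃ c, c = ((Finset.range (n + 1)).filter
      (fun t => γ (ix t) = γ' (ix t))).card := ⟨_, rfl⟩
    have hcnt : cnt (orbDist (fS S1_inv) (rr γ) (rr γ')) 2 n = (c : ℝ) / n := by
      unfold cnt
      rw [hc]
      congr 3
      ext t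
      rw [Finset.mem_filter, Finset.mem_filter, rr_two]
    rw [hcnt]
    obtain ⟨e, he⟩ : ∃ e, e = Nat.count (pd γ γ') (2 ^ (j + 5 + k)) := ⟨_, rfl⟩
    rw [← he] at h1 h2
    rw [← hc] at h4
    obtain ⟨q, hq⟩ : ∃ q, q = 2 ^ k := ⟨_, rfl⟩
    obtain ⟨p, hp⟩ : ∃ p, p = P (2 * m) := ⟨_, rfl⟩
    rw [← hq] at h2 h3 h2k
    rw [← hp] at h1 h3 hPm
    have h6 : c + 2 * p * e ≤ n + 1 := by
      simp only [ne_eq, Nat.succ_eq_add_one] at h1 h5 h4
      omega
    have h7 : c + 2 * p * q * E ≤ n + 2 * (2 * p * q) := by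
      have h8 : 2 * p * (q * E + 1) ≤ 2 * p * (e + q) := Nat.mul_le_mul_left _ h2
      have h9 : 0 < 2 * p * q := by positivity
      have e1 : 2 * p * (q * E + 1) = 2 * p * q * E + 2 * p := by ring
      have e2 : 2 * p * (e + q) = 2 * p * e + 2 * p * q := by ring
      rw [e1, e2] at h8
      clear h1 h2 h3 h4 h5 he hc hq hp hn
      omega
    have hn0 : (0 : ℝ) < n := by
      rw [h3]
      have : (0 : ℝ) < p := by exact_mod_cast hPm
      have : (0 : ℝ) < q := by exact_mod_cast h2k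
      push_cast
      positivity
    rw [div_le_iff₀ hn0]
    have h8 : (c : ℝ) + 2 * p * q * E ≤ n + 2 * (2 * p * q) := by exact_mod_cast h7
    have h9 : (n : ℝ) = 2 * (A * q) * p := by exact_mod_cast h3
    have h10 : (1 - ((E : ℝ) - 2) / A) * n = n - (E - 2) * (2 * q * p) := by
      rw [h9]; field_simp
    rw [h10]
    linarith
  have hupp : ∀ δ : ℝ, 0 < δ → ((1 - (E + 2) / (2 * A) : ℝ) : EReal) ≤
      upperF (orbDist (fS S1_inv) (rr γ) (rr γ')) δ := by
    intro δ hδ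
    obtain ⟨w, hw⟩ : ∃ w : ℕ, 2 * (1 / 2 : ℝ) ^ w < δ := by
      obtain ⟨w, hw⟩ := exists_pow_lt_of_lt_one (half_pos hδ) (by norm_num : (1 / 2 : ℝ) < 1)
      exact ⟨w, by linarith⟩
    have htend : Tendsto (fun m => P (2 * m + 1 + 1)) atTop atTop :=
      tendsto_atTop_mono le_P_odd tendsto_id
    refine le_upperF (htend.frequently (Eventually.frequently ?_))
    filter_upwards [eventually_ge_atTop (j + 5 + 2 * A * w)] with m hm
    obtain ⟨k, hk⟩ : ∃ k, 2 * (2 * m + 1) + 3 = j + 5 + k := ⟨4 * m + 5 - (j + 5), by omega⟩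
    have h1 := odd_count (γ := γ) (γ' := γ') h0 (M := 2 * m + 1) (by omega) w
      (fun t => orbDist (fS S1_inv) (rr γ) (rr γ') t < δ)
      (fun t ht => (rr_window γ γ' w t ht).trans_lt hw)
    have h2 := (E_bounds γ γ' (j + 5) k).1
    have h3 : P (2 * m + 1 + 1) = 2 * (2 ^ (j + 5) * 2 ^ k) * P (2 * m + 1) := by
      rw [P_succ, lam_eq, hk, pow_add]
    have h3' : lam (2 * m + 1) = 2 * (2 ^ (j + 5) * 2 ^ k) := by
      rw [lam_eq, hk, pow_add]
    rw [hk] at h1
    rw [← hA] at h2 h3 h3'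
    rw [← hEE] at h2
    rw [h3'] at h1
    have hw2 : 2 * A * w ≤ P (2 * m + 1) := by
      have := le_P (2 * m + 1)
      omega
    have h2k : 0 < 2 ^ k := by positivity
    have h5 : ((Finset.range (P (2 * m + 1 + 1))).filter
        (fun t => orbDist (fS S1_inv) (rr γ) (rr γ') t < δ)).card ≤
        ((Finset.range (P (2 * m + 1 + 1) + 1)).filter
        (fun t => orbDist (fS S1_inv) (rr γ) (rr γ') t < δ)).card :=
      Finset.card_le_card (Finset.filter_subset_filter _ (Finset.range_subset_range.mpr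
        (by omega)))
    have h6 := h1.trans h5
    unfold cnt
    obtain ⟨n, hn⟩ : ∃ n, n = P (2 * m + 1 + 1) := ⟨_, rfl⟩
    rw [← hn] at h3 h6 ⊢
    obtain ⟨c, hc⟩ : ∃ c, c = ((Finset.range (n + 1)).filter
      (fun t => orbDist (fS S1_inv) (rr γ) (rr γ') t < δ)).card := ⟨_, rfl⟩
    rw [← hc] at h6 ⊢
    obtain ⟨e, he⟩ : ∃ e, e = Nat.count (pd γ γ') (2 ^ (j + 5 + k)) := ⟨_, rfl⟩
    rw [← he] at h6 h2
    obtain ⟨q, hq⟩ : ∃ q, q = 2 ^ k := ⟨_, rfl⟩
    obtain ⟨p, hp⟩ : ∃ p, p = P (2 * m + 1) := ⟨_, rfl⟩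
    have hPm := P_pos (2 * m + 1)
    rw [← hq] at h2 h3 h2k h6
    rw [← hp] at h6 h3 hPm hw2
    -- the inequality over the reals
    have hp0 : (0 : ℝ) < p := by exact_mod_cast hPm
    have hq0 : (0 : ℝ) < q := by exact_mod_cast h2k
    have h7 : (2 * (A * q) - (1 + e) : ℝ) ≤ ((2 * (A * q) - (1 + e) : ℕ) : ℝ) := by
      have : 2 * (A * q) ≤ 2 * (A * q) - (1 + e) + (1 + e) := by omega
      have h8 : ((2 * (A * q) : ℕ) : ℝ) ≤ ((2 * (A * q) - (1 + e) + (1 + e) : ℕ) : ℝ) := by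
        exact_mod_cast this
      push_cast at h8 ⊢
      linarith
    have h8 : (p - w : ℝ) ≤ ((p - w : ℕ) : ℝ) := by
      have : p ≤ p - w + w := by omega
      have h9 : (p : ℝ) ≤ ((p - w + w : ℕ) : ℝ) := by exact_mod_cast this
      push_cast at h9 ⊢
      linarith
    have h9 : (((2 * (A * q) - (1 + e) : ℕ) : ℝ)) * ((p - w : ℕ) : ℝ) ≤ c := by
      exact_mod_cast h6
    have h10 : (e : ℝ) + 1 ≤ q * (E + 1) := by exact_mod_cast h2
    have h11 : (2 : ℝ) * A * w ≤ p := by exact_mod_cast hw2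
    have h12 : (n : ℝ) = 2 * (A * q) * p := by exact_mod_cast h3
    have hn0 : (0 : ℝ) < n := by rw [h12]; positivity
    rw [le_div_iff₀ hn0]
    have h13 : (1 - ((E : ℝ) + 2) / (2 * A)) * n = q * p * (2 * A - E - 2) := by
      rw [h12]; field_simp; ring
    rw [h13]
    have hw0 : (0 : ℝ) ≤ w := Nat.cast_nonneg _
    have hA1 : (1 : ℝ) ≤ A := by exact_mod_cast hA0
    have hwp : (w : ℝ) ≤ p := by
      have h19 : 0 ≤ (2 * (A : ℝ) - 1) * w := mul_nonneg (by linarith) hw0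
      linarith
    rcases le_or_gt (2 * (A : ℝ) - E - 1) 0 with h14 | h14
    · have h15 : q * p * (2 * (A : ℝ) - E - 2) ≤ 0 :=
        mul_nonpos_of_nonneg_of_nonpos (by positivity) (by linarith)
      exact h15.trans (Nat.cast_nonneg c)
    · have h15 : (q : ℝ) * (2 * A - E - 1) ≤ 2 * (A * q) - (1 + e) := by
        have e1 : (q : ℝ) * (2 * A - E - 1) = 2 * (A * q) - q * (E + 1) := by ring
        linarith
      have h16 : (q : ℝ) * (2 * A - E - 1) * (p - w) ≤ c := by
        refine le_trans ?_ h9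
        exact mul_le_mul (h15.trans h7) h8 (by linarith) (Nat.cast_nonneg _)
      refine le_trans ?_ h16
      have h17 : (2 * (A : ℝ) - E - 1) * w ≤ p := by
        have e1 : (2 * (A : ℝ) - E - 1) * w = 2 * A * w - (E + 1) * w := by ring
        have e2 : 0 ≤ ((E : ℝ) + 1) * w := by positivity
        linarith
      have h18 := mul_le_mul_of_nonneg_left h17 hq0.le
      have e3 : (q : ℝ) * (2 * A - E - 1) * (p - w) =
          q * p * (2 * A - E - 2) + q * p - q * ((2 * A - E - 1) * w) := by ring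
      linarith
  refine ⟨?_, ?_⟩
  · intro h
    obtain ⟨C, hC, N₀, hN₀⟩ := dis_lower hj
    have h1 := hN₀ (N₀ + 1) (by omega)
    have h2 : 0 < dis γ γ' (N₀ + 1) := by
      rcases Nat.eq_zero_or_pos (dis γ γ' (N₀ + 1)) with h3 | h3
      · rw [h3] at h1; omega
      · exact h3
    obtain ⟨k, hk⟩ := Finset.card_pos.mp h2
    rw [Finset.mem_filter] at hk
    refine hk.2 ((rr_two γ γ' k).mp ?_)
    rw [h]
    unfold orbDist
    rw [dist_self]
    norm_num
  · have h13 : ((1 - (E - 2) / A : ℝ) : EReal) < ((1 - (E + 2) / (2 * A) : ℝ) : EReal) := by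
      have : (1 - ((E : ℝ) - 2) / A) < 1 - (E + 2) / (2 * A) := by
        have h1 : ((E : ℝ) + 2) / (2 * A) < (E - 2) / A := by
          rw [div_lt_div_iff₀ (by positivity) hAr]
          have h2 : 0 < (A : ℝ) * (E - 6) := mul_pos hAr (by linarith)
          linarith
        linarith
      exact_mod_cast this
    exact ((iInf₂_le 2 two_pos).trans hlow).trans_lt (h13.trans_le (le_iInf₂ hupp))

/-- The sequences used. -/
def gs (t : ℕ → Bool) (i : ℕ) : Bool := if i = 0 then false else t (i - 1)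

lemma gs_inj {t t' : ℕ → Bool} (h : t ≠ t') : gs t ≠ gs t' := by
  obtain ⟨j, hj⟩ := Function.ne_iff.mp h
  refine Function.ne_iff.mpr ⟨j + 1, ?_⟩
  unfold gs
  simpa using hj

theorem main1 : IsDendrite (Cone S1) ∧ Continuous (fS S1_inv) ∧
    (∃ D : Set (Cone S1), ¬ D.Countable ∧ ∀ x ∈ D, ∀ y ∈ D, x ≠ y →
      IsDC2hPair (fS S1_inv) x y) ∧ ∀ x y, ¬ IsDC2Pair (fS S1_inv) x y := by
  refine ⟨cone_dendrite, coneMap_continuous _ _, ⟨range fun t => rr (gs t), ?_, ?_⟩, ?_⟩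
  · intro hc
    have hinj : Function.Injective (fun t => rr (gs t)) := by
      intro t t' h
      by_contra hne
      exact (DC2h_pair (γ := gs t) (γ' := gs t') rfl (gs_inj hne)).1 h
    have : Countable (range fun t => rr (gs t)) := hc
    exact uncountable_seq ((Equiv.ofInjective _ hinj).countable_iff.mpr this)
  · rintro _ ⟨t, rfl⟩ _ ⟨t', rfl⟩ hne
    have htt : t ≠ t' := fun h => hne (by rw [h])
    exact DC2h_pair (γ := gs t) (γ' := gs t') rfl (gs_inj htt)
  · intro x y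
    have hcomp : CompactSpace (Cone S1) := (cone_dendrite (Y := S1)).1
    rcases trichotomy (TS S1_inv) (TS_dist S1_inv) x y with ⟨a, b, rfl, rfl⟩ | h | h
    · exact S1_no_DC2 a b
    · exact not_DC2_of_zero h
    · exact not_DC2_of_pos one_pos (h.mono fun k hk => hk.ge)

end Pool.Agent.Q187.DC
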