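import Pool.Agent.Q187.DC.Sym

/-!
# A system with an uncountable DC3 set and without Li-Yorke pairs
-/

set_option autoImplicit false

open Set Filter Topology

namespace Pool.Agent.Q187.DC

/-- The infinite word: `bb i` has period `P i`, and its block of length `P (i + 1)` consists of
`lam i - 1` copies of the block of length `P i` and one complemented copy. -/
def bb : ℕ → ℕ → Bool
  | 0, _ => false
  | (i + 1), t => xor (bb i t) (decide ((t / P i) % lam i = lam i - 1))

lemma bb_succ (i t : ℕ) :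
    bb (i + 1) t = xor (bb i t) (decide ((t / P i) % lam i = lam i - 1)) := rfl

lemma bb_add_mul (i m t d : ℕ) (h : i ≤ m) : bb i (t + P m * d) = bb i t := by
  induction i with
  | zero => rfl
  | succ i ih =>
    unfold bb
    rw [ih (by omega)]
    congr 2
    obtain ⟨q, hq⟩ := P_dvd h
    have e : P m * d = P i * (lam i * (q * d)) := by rw [hq, P_succ]; ring
    rw [e, Nat.add_mul_div_left _ _ (P_pos i), Nat.add_mul_mod_self_left]

lemma bb_mod (i t : ℕ) : bb i (t % P i) = bb i t := by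
  conv_rhs => rw [← Nat.mod_add_div t (P i)]
  rw [bb_add_mul i i _ _ le_rfl]

lemma bb_step {i j t : ℕ} (hij : i ≤ j) (h : ¬ P i ∣ t + 1) :
    xor (bb j t) (bb j (t + 1)) = xor (bb i t) (bb i (t + 1)) := by
  induction j with
  | zero => rw [Nat.le_zero.mp hij]
  | succ j ih =>
    rcases Nat.lt_or_ge i (j + 1) with h1 | h1
    · have h2 : ¬ P j ∣ t + 1 := fun h3 => h ((P_dvd (by omega)).trans h3)
      rw [← ih (by omega), bb_succ, bb_succ, Nat.succ_div_of_not_dvd h2]
      cases bb j t <;> cases bb j (t + 1) <;>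
        cases (decide (t / P j % lam j = lam j - 1)) <;> rfl
    · rw [le_antisymm hij h1]

/-- The closed invariant set. -/
def S2 : Set W := {w | ∀ k i : ℕ, (((w i).2 : ℕ) + k + 1) % P i ≠ 0 →
  xor (w k).1 (w (k + 1)).1 = xor (bb i ((w i).2 + k)) (bb i ((w i).2 + k + 1))}

lemma S2_closed : IsClosed S2 := by
  have e : S2 = ⋂ k : ℕ, ⋂ i : ℕ, (fun w : W => (w i, w k, w (k + 1))) ⁻¹'
      {q : (Bool × Fin (P i)) × (Bool × Fin (P k)) × (Bool × Fin (P (k + 1))) |
        ((q.1.2 : ℕ) + k + 1) % P i ≠ 0 →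
        xor q.2.1.1 q.2.2.1 = xor (bb i (q.1.2 + k)) (bb i (q.1.2 + k + 1))} := by
    ext w
    simp [S2]
  rw [e]
  refine isClosed_iInter fun k => isClosed_iInter fun i => ?_
  refine (isClosed_discrete _).preimage ?_
  exact (W_continuous_apply i).prodMk ((W_continuous_apply k).prodMk (W_continuous_apply (k + 1)))

lemma S2_inv : ∀ w ∈ S2, T w ∈ S2 := by
  intro w hw k i hk
  have hval : (((T w i).2 : Fin (P i)) : ℕ) = (((w i).2 : ℕ) + 1) % P i := by
    unfold T
    simp [Fin.val_add]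
  have h1 : ∀ s : ℕ, (((T w i).2 : ℕ) + s) % P i = (((w i).2 : ℕ) + (s + 1)) % P i := by
    intro s
    rw [hval, Nat.mod_add_mod]
    congr 1
    ring
  have h2 : ∀ s : ℕ, bb i (((T w i).2 : ℕ) + s) = bb i (((w i).2 : ℕ) + (s + 1)) := by
    intro s
    rw [← bb_mod, h1 s, bb_mod]
  have h3 := hw (k + 1) i (by
    have := h1 (k + 1)
    rw [← add_assoc] at this
    rw [this] at hk
    exact hk)
  have e1 : (T w k).1 = (w (k + 1)).1 := rfl
  have e2 : (T w (k + 1)).1 = (w (k + 1 + 1)).1 := rfl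
  have h4 : bb i (((T w i).2 : ℕ) + k + 1) = bb i (((w i).2 : ℕ) + (k + 1) + 1) := h2 (k + 1)
  rw [e1, e2, h3, h2 k, h4]

/-- No Li-Yorke pairs: the distances are eventually zero or bounded below. -/
lemma S2_pairs (x y : W) (hx : x ∈ S2) (hy : y ∈ S2) :
    (∀ᶠ k in atTop, dist (T^[k] x) (T^[k] y) = 0) ∨
    (∃ c : ℝ, 0 < c ∧ ∀ᶠ k in atTop, c ≤ dist (T^[k] x) (T^[k] y)) := by
  by_cases h : ∃ n, (x n).2 ≠ (y n).2
  · obtain ⟨n, hn⟩ := h
    exact Or.inr ⟨(1 / 2) ^ (n + 1), by positivity, Eventually.of_forall (dist_odometer x y n hn)⟩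
  · push Not at h
    obtain ⟨K, hK⟩ : ∃ K, ∀ k ≥ K, ∃ i, (((x i).2 : ℕ) + k + 1) % P i ≠ 0 := by
      by_cases h1 : ∃ k₀, ∀ i, (((x i).2 : ℕ) + k₀ + 1) % P i = 0
      · obtain ⟨k₀, hk₀⟩ := h1
        refine ⟨k₀ + 1, fun k hk => ?_⟩
        by_contra h2
        push Not at h2
        have h3 := Nat.dvd_of_mod_eq_zero (hk₀ k)
        have h4 := Nat.dvd_of_mod_eq_zero (h2 k)
        have h5 : P k ∣ (((x k).2 : ℕ) + k + 1) - (((x k).2 : ℕ) + k₀ + 1) := Nat.dvd_sub h4 h3
        have e : (((x k).2 : ℕ) + k + 1) - (((x k).2 : ℕ) + k₀ + 1) = k - k₀ := by omega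
        rw [e] at h5
        have h6 := Nat.le_of_dvd (by omega) h5
        have h7 := le_P k
        omega
      · push Not at h1
        exact ⟨0, fun k _ => h1 k⟩
    have hD : ∀ k ≥ K, xor (x (k + 1)).1 (y (k + 1)).1 = xor (x k).1 (y k).1 := by
      intro k hk
      obtain ⟨i, hi⟩ := hK k hk
      have h1 := hx k i hi
      have h2 := hy k i (by rw [← h i]; exact hi)
      rw [← h i, ← h1] at h2
      revert h2
      cases (x k).1 <;> cases (y k).1 <;> cases (x (k + 1)).1 <;> cases (y (k + 1)).1 <;> simp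
    have hD' : ∀ k ≥ K, xor (x k).1 (y k).1 = xor (x K).1 (y K).1 := by
      intro k hk
      induction k, hk using Nat.le_induction with
      | base => rfl
      | succ k hk ih => rw [hD k hk, ih]
    rcases hc : xor (x K).1 (y K).1 with _ | _
    · left
      filter_upwards [eventually_ge_atTop K] with k hk
      rw [dist_eq_zero]
      funext n
      rw [T_iter, T_iter, h n]
      congr 1
      have := hD' (n + k) (by omega)
      rw [hc] at this
      revert this
      cases (x (n + k)).1 <;> cases (y (n + k)).1 <;> simp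
    · right
      refine ⟨1, one_pos, ?_⟩
      filter_upwards [eventually_ge_atTop K] with k hk
      rw [dist_symbol_ne]
      rw [T_iter_symbol, T_iter_symbol]
      have := hD' k hk
      rw [hc] at this
      revert this
      cases (x k).1 <;> cases (y k).1 <;> simp

/-! ### The points -/

/-- The coordinates of the odometer: the digit at level `i` is the last one if `fl i`, and zero
otherwise. -/
def zz (fl : ℕ → Bool) : ℕ → ℕ
  | 0 => 0
  | (i + 1) => zz fl i + (if fl i then lam i - 1 else 0) * P i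

lemma dig_lt (fl : ℕ → Bool) (i : ℕ) : (if fl i then lam i - 1 else 0) + 1 ≤ lam i := by
  have := lam_ge i
  split_ifs <;> omega

lemma zz_add_lt {fl : ℕ → Bool} {i k : ℕ} (h : zz fl i + k < P i) :
    zz fl (i + 1) + k < P (i + 1) := by
  have h1 := Nat.mul_le_mul_right (P i) (dig_lt fl i)
  rw [add_mul, one_mul] at h1
  rw [P_succ]
  unfold zz
  omega

lemma zz_lt (fl : ℕ → Bool) (i : ℕ) : zz fl i < P i := by
  induction i with
  | zero => exact P_pos 0
  | succ i ih => exact zz_add_lt (k := 0) ih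

lemma zz_add_lt' {fl : ℕ → Bool} {i j k : ℕ} (hij : i ≤ j) (h : zz fl i + k < P i) :
    zz fl j + k < P j := by
  induction j, hij using Nat.le_induction with
  | base => exact h
  | succ j _ ih => exact zz_add_lt ih

lemma zz_eq (fl : ℕ → Bool) {i j : ℕ} (hij : i ≤ j) : ∃ q, zz fl j = zz fl i + P i * q := by
  induction j, hij using Nat.le_induction with
  | base => exact ⟨0, by simp⟩
  | succ j hij ih =>
    obtain ⟨q, hq⟩ := ih
    obtain ⟨r, hr⟩ := P_dvd hij
    refine ⟨q + (if fl j then lam j - 1 else 0) * r, ?_⟩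
    have e : zz fl (j + 1) = zz fl j + (if fl j then lam j - 1 else 0) * P j := rfl
    rw [e, hq, hr]
    ring

lemma bb_zz_succ {fl : ℕ → Bool} {i k : ℕ} (h : zz fl i + k < P i) :
    bb (i + 1) (zz fl (i + 1) + k) = xor (bb i (zz fl i + k)) (fl i) := by
  have e : zz fl (i + 1) + k = zz fl i + k + P i * (if fl i then lam i - 1 else 0) := by
    have e : zz fl (i + 1) = zz fl i + (if fl i then lam i - 1 else 0) * P i := rfl
    rw [e]; ring
  have hd : decide ((if fl i = true then lam i - 1 else 0) = lam i - 1) = fl i := by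
    have := lam_ge i
    cases hfi : fl i
    · simp; omega
    · simp
  rw [e, bb_succ, bb_add_mul i i _ _ le_rfl, Nat.add_mul_div_left _ _ (P_pos i),
    Nat.div_eq_of_lt h, zero_add, Nat.mod_eq_of_lt (dig_lt fl i), hd]

lemma bb_zz_indep {fl : ℕ → Bool} {i j k : ℕ} (hij : i ≤ j) (h : zz fl i + k < P i) :
    xor (bb j (zz fl j + k)) (bb j (zz fl j)) = xor (bb i (zz fl i + k)) (bb i (zz fl i)) := by
  induction j, hij using Nat.le_induction with
  | base => rfl
  | succ j hij ih =>
    have h1 := bb_zz_succ (zz_add_lt' hij h)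
    have h2 := bb_zz_succ (k := 0) (zz_lt fl j)
    rw [add_zero, add_zero] at h2
    rw [h1, h2, ← ih]
    cases bb j (zz fl j + k) <;> cases bb j (zz fl j) <;> cases fl j <;> rfl

/-- The symbols. -/
def uu (fl : ℕ → Bool) (k : ℕ) : Bool :=
  xor (bb (2 * k + 1) (zz fl (2 * k + 1) + k)) (bb (2 * k + 1) (zz fl (2 * k + 1)))

/-- The point. -/
def pp (fl : ℕ → Bool) : W := fun n => (uu fl n, ⟨zz fl n, zz_lt fl n⟩)

lemma zz_even {fl : ℕ → Bool} (hfl : ∀ m, fl (2 * m) = false) (m : ℕ) :
    zz fl (2 * m + 1) = zz fl (2 * m) := by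
  have e : zz fl (2 * m + 1) = zz fl (2 * m) + (if fl (2 * m) then lam (2 * m) - 1 else 0) *
    P (2 * m) := rfl
  rw [e, hfl]; simp

lemma zz_even_lt {fl : ℕ → Bool} (hfl : ∀ m, fl (2 * m) = false) {m k : ℕ}
    (hk : k < P (2 * m + 1) - P (2 * m)) : zz fl (2 * m + 1) + k < P (2 * m + 1) := by
  rw [zz_even hfl]
  have := zz_lt fl (2 * m)
  omega

lemma lt_P_sub (m : ℕ) : m < P (2 * m + 1) - P (2 * m) := by
  have h1 := le_P (2 * m)
  have h2 := lam_ge (2 * m)
  have h3 : 16 * P (2 * m) ≤ P (2 * m + 1) := by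
    rw [P_succ]; exact Nat.mul_le_mul_right _ h2
  omega

lemma uu_eq {fl : ℕ → Bool} (hfl : ∀ m, fl (2 * m) = false) {j k : ℕ} (h : zz fl j + k < P j) :
    uu fl k = xor (bb j (zz fl j + k)) (bb j (zz fl j)) := by
  have h1 : zz fl (2 * k + 1) + k < P (2 * k + 1) := zz_even_lt hfl (lt_P_sub k)
  unfold uu
  rw [← bb_zz_indep (le_max_left (2 * k + 1) j) h1, ← bb_zz_indep (le_max_right (2 * k + 1) j) h]

lemma pp_mem {fl : ℕ → Bool} (hfl : ∀ m, fl (2 * m) = false) : pp fl ∈ S2 := by
  intro k i hk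
  have hz : (((pp fl i).2 : Fin (P i)) : ℕ) = zz fl i := rfl
  rw [hz] at hk ⊢
  have e1 : (pp fl k).1 = uu fl k := rfl
  have e2 : (pp fl (k + 1)).1 = uu fl (k + 1) := rfl
  have h1 : zz fl (2 * (k + 1) + 1) + (k + 1) < P (2 * (k + 1) + 1) :=
    zz_even_lt hfl (lt_P_sub (k + 1))
  have h2 := zz_add_lt' (le_max_right i (2 * (k + 1) + 1)) h1
  obtain ⟨j, hj⟩ : ∃ j, j = max i (2 * (k + 1) + 1) := ⟨_, rfl⟩
  rw [← hj] at h2
  obtain ⟨q, hq⟩ := zz_eq fl (show i ≤ j by rw [hj]; exact le_max_left _ _)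
  rw [e1, e2, uu_eq hfl (j := j) (k := k) (by omega), uu_eq hfl h2]
  have h3 : ¬ P i ∣ (zz fl j + k) + 1 := by
    intro h4
    apply hk
    rw [hq] at h4
    have e : zz fl i + P i * q + k + 1 = (zz fl i + k + 1) + P i * q := by ring
    rw [e] at h4
    exact Nat.mod_eq_zero_of_dvd ((Nat.dvd_add_left (Dvd.intro q rfl)).mp h4)
  have h5 := bb_step (show i ≤ j by rw [hj]; exact le_max_left _ _) h3
  have e3 : bb i (zz fl j + k) = bb i (zz fl i + k) := by
    have e : zz fl j + k = (zz fl i + k) + P i * q := by rw [hq]; ring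
    rw [e, bb_add_mul i i _ _ le_rfl]
  have e4 : bb i (zz fl j + k + 1) = bb i (zz fl i + k + 1) := by
    have e : zz fl j + k + 1 = (zz fl i + k + 1) + P i * q := by rw [hq]; ring
    rw [e, bb_add_mul i i _ _ le_rfl]
  rw [e3, e4] at h5
  rw [← h5, ← add_assoc]
  cases bb j (zz fl j + k) <;> cases bb j (zz fl j) <;> cases bb j (zz fl j + k + 1) <;> rfl

/-! ### Counting -/

lemma count_periodic (p : ℕ → Prop) [DecidablePred p] (a L : ℕ) (h : ∀ t, p (t + a) ↔ p t) :
    Nat.count p (L * a) = L * Nat.count p a := by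
  induction L with
  | zero => simp
  | succ L ih =>
    have h1 : ∀ k, p (L * a + k) ↔ p k := by
      intro k
      clear ih
      induction L with
      | zero => simp
      | succ L ih =>
        rw [← ih]
        have e : (L + 1) * a + k = (L * a + k) + a := by ring
        rw [e, h]
    rw [add_mul, one_mul, Nat.count_add, ih, add_mul, one_mul]
    congr 1
    rw [Nat.count_eq_card_filter_range, Nat.count_eq_card_filter_range]
    congr 1
    ext k
    simp [h1]

end Pool.Agent.Q187.DC
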