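import Mathlib

/-!
# The cone over a compact ultrametric space is a dendrite
-/

set_option autoImplicit false

open Set Filter Topology

namespace Pool.Agent.Q187.DC

/-- Ultrametric spaces of diameter at most one. -/
class UU (Y : Type) [MetricSpace Y] : Prop where
  ultra : ∀ x y z : Y, dist x z ≤ max (dist x y) (dist y z)
  le_one : ∀ x y : Y, dist x y ≤ 1

/-- The points of the cone: an end and a height between `0` (the root) and `1` (the end). -/
structure Pre (Y : Type) where
  pt : Y
  ht : ℝ
  h0 : 0 ≤ ht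
  h1 : ht ≤ 1

variable {Y : Type} [MetricSpace Y]

/-- The height at which the arcs from the root to the two points separate. -/
noncomputable def meet (p q : Pre Y) : ℝ := min (min p.ht q.ht) (1 - dist p.pt q.pt)

lemma meet_comm (p q : Pre Y) : meet p q = meet q p := by
  unfold meet; rw [min_comm p.ht, dist_comm]

lemma meet_le_left (p q : Pre Y) : meet p q ≤ p.ht := (min_le_left _ _).trans (min_le_left _ _)

lemma meet_le_right (p q : Pre Y) : meet p q ≤ q.ht := (min_le_left _ _).trans (min_le_right _ _)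

lemma meet_le_dist (p q : Pre Y) : meet p q ≤ 1 - dist p.pt q.pt := min_le_right _ _

lemma meet_self (p : Pre Y) : meet p p = p.ht := by
  unfold meet
  rw [min_self, dist_self, sub_zero, min_eq_left p.h1]

lemma meet_ultra [UU Y] (p q r : Pre Y) : min (meet p q) (meet q r) ≤ meet p r := by
  refine le_min (le_min ((min_le_left _ _).trans (meet_le_left _ _))
    ((min_le_right _ _).trans (meet_le_right _ _))) ?_
  have h := UU.ultra p.pt q.pt r.pt
  rcases le_total (dist p.pt q.pt) (dist q.pt r.pt) with h1 | h1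
  · rw [max_eq_right h1] at h
    exact (min_le_right _ _).trans ((meet_le_dist q r).trans (by linarith))
  · rw [max_eq_left h1] at h
    exact (min_le_left _ _).trans ((meet_le_dist p q).trans (by linarith))

lemma meet_nonneg [UU Y] (p q : Pre Y) : 0 ≤ meet p q :=
  le_min (le_min p.h0 q.h0) (by linarith [UU.le_one p.pt q.pt])

noncomputable instance instPre [UU Y] : PseudoMetricSpace (Pre Y) where
  dist p q := p.ht + q.ht - 2 * meet p q
  dist_self p := by rw [meet_self]; ring
  dist_comm p q := by rw [meet_comm]; ring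
  dist_triangle p q r := by
    have h1 := meet_ultra p q r
    have h2 : max (meet p q) (meet q r) ≤ q.ht := max_le (meet_le_right _ _) (meet_le_left _ _)
    have h3 := min_add_max (meet p q) (meet q r)
    linarith

lemma dist_def [UU Y] (p q : Pre Y) : dist p q = p.ht + q.ht - 2 * meet p q := rfl

/-- The cone. -/
abbrev Cone (Y : Type) [MetricSpace Y] [UU Y] : Type := SeparationQuotient (Pre Y)

variable [UU Y]

/-- The points of the cone. -/
noncomputable def mk (p : Pre Y) : Cone Y := SeparationQuotient.mk p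

lemma dist_mk (p q : Pre Y) : dist (mk p) (mk q) = dist p q := SeparationQuotient.dist_mk p q

lemma exists_mk (x : Cone Y) : ∃ p, mk p = x := SeparationQuotient.surjective_mk x

lemma mk_eq_iff (p q : Pre Y) : mk p = mk q ↔ dist p q = 0 := by
  rw [← dist_mk, dist_eq_zero]

lemma continuous_mk : Continuous (mk : Pre Y → Cone Y) := SeparationQuotient.continuous_mk

instance [CompactSpace Y] : CompactSpace (Pre Y) := by
  obtain ⟨φ, hφ⟩ : ∃ φ : Y × Icc (0 : ℝ) 1 → Pre Y,
      φ = fun a => ⟨a.1, a.2.1, a.2.2.1, a.2.2.2⟩ := ⟨_, rfl⟩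
  have hc : LipschitzWith 3 φ := by
    refine LipschitzWith.of_dist_le_mul fun a b => ?_
    rw [dist_def, hφ]
    have h1 : dist a.1 b.1 ≤ dist a b := le_max_left _ _
    have h2 : |(a.2 : ℝ) - b.2| ≤ dist a b := by
      have : dist a.2 b.2 ≤ dist a b := le_max_right _ _
      rwa [Subtype.dist_eq, Real.dist_eq] at this
    have h3 : (0 : ℝ) ≤ dist a b := dist_nonneg
    have h4 := abs_le.mp h2
    have h5 := a.2.2.2
    have h6 := b.2.2.2
    simp only [meet, NNReal.coe_ofNat]
    rcases le_total (min (a.2 : ℝ) b.2) (1 - dist a.1 b.1) with h | h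
    · rw [min_eq_left h]
      rcases le_total (a.2 : ℝ) b.2 with h7 | h7
      · rw [min_eq_left h7]; linarith
      · rw [min_eq_right h7]; linarith
    · rw [min_eq_right h]; linarith
  have hs : Function.Surjective φ := by
    intro p
    exact ⟨(p.pt, ⟨p.ht, p.h0, p.h1⟩), by rw [hφ]⟩
  constructor
  rw [← hs.range_eq]
  exact isCompact_range hc.continuous

/-- The arc from the root to an end. -/
noncomputable def arc (y : Y) (t : ℝ) : Cone Y :=
  mk ⟨y, max 0 (min t 1), le_max_left _ _, max_le zero_le_one (min_le_right _ _)⟩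

lemma arc_eq (p : Pre Y) : arc p.pt p.ht = mk p := by
  unfold arc
  congr 1
  obtain ⟨y, t, h0, h1⟩ := p
  simp [min_eq_left h1, max_eq_right h0]

lemma continuous_arc (y : Y) : Continuous (arc y) := by
  have hL : LipschitzWith 1 (arc y) := by
    refine LipschitzWith.of_dist_le_mul fun s t => ?_
    rw [NNReal.coe_one, one_mul, Real.dist_eq]
    unfold arc
    rw [dist_mk, dist_def]
    simp only [meet, dist_self, sub_zero]
    obtain ⟨s', hs'⟩ : ∃ s', s' = max 0 (min s 1) := ⟨_, rfl⟩
    obtain ⟨t', ht'⟩ : ∃ t', t' = max 0 (min t 1) := ⟨_, rfl⟩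
    have h1 : s' ≤ 1 := by rw [hs']; exact max_le zero_le_one (min_le_right _ _)
    have h2 : t' ≤ 1 := by rw [ht']; exact max_le zero_le_one (min_le_right _ _)
    have h3 : |s' - t'| ≤ |s - t| := by
      rw [hs', ht']
      have e1 := abs_max_sub_max_le_max 0 (min s 1) 0 (min t 1)
      have e2 := abs_min_sub_min_le_max s 1 t 1
      have e3 : max |(0 : ℝ) - 0| |min s 1 - min t 1| = |min s 1 - min t 1| := by
        rw [sub_self, abs_zero]; exact max_eq_right (abs_nonneg _)
      have e4 : max |s - t| |(1 : ℝ) - 1| = |s - t| := by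
        rw [sub_self, abs_zero]; exact max_eq_left (abs_nonneg _)
      rw [e3] at e1
      rw [e4] at e2
      exact e1.trans e2
    rw [← hs', ← ht', min_eq_left (min_le_left s' t' |>.trans h1)]
    rcases le_total s' t' with h | h
    · rw [min_eq_left h]
      rw [abs_sub_comm, abs_of_nonneg (by linarith)] at h3
      linarith
    · rw [min_eq_right h]
      rw [abs_of_nonneg (by linarith)] at h3
      linarith
  exact hL.continuous

/-- Two points are joined by a connected set of points which are not farther from the first. -/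
lemma exists_segment (x y : Cone Y) : ∃ s : Set (Cone Y), x ∈ s ∧ y ∈ s ∧ IsPreconnected s ∧
    ∀ r ∈ s, dist r x ≤ dist x y := by
  obtain ⟨p, rfl⟩ := exists_mk x
  obtain ⟨q, rfl⟩ := exists_mk y
  obtain ⟨g, hg⟩ : ∃ g, g = meet p q := ⟨_, rfl⟩
  have hg0 : 0 ≤ g := by rw [hg]; exact meet_nonneg _ _
  have hgp : g ≤ p.ht := by rw [hg]; exact meet_le_left _ _
  have hgq : g ≤ q.ht := by rw [hg]; exact meet_le_right _ _
  have hgd : g ≤ 1 - dist p.pt q.pt := by rw [hg]; exact meet_le_dist _ _
  have hd : dist (mk p) (mk q) = p.ht + q.ht - 2 * g := by rw [dist_mk, dist_def, hg]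
  have hp1 := p.h1
  have hq1 := q.h1
  have hjoin : arc p.pt g = arc q.pt g := by
    unfold arc
    rw [mk_eq_iff, dist_def]
    simp only [meet]
    rw [min_eq_left (by linarith : g ≤ 1), max_eq_right hg0, min_self, min_eq_left hgd]
    ring
  refine ⟨arc p.pt '' Icc g p.ht ∪ arc q.pt '' Icc g q.ht, ?_, ?_, ?_, ?_⟩
  · exact Or.inl ⟨p.ht, ⟨hgp, le_rfl⟩, arc_eq p⟩
  · exact Or.inr ⟨q.ht, ⟨hgq, le_rfl⟩, arc_eq q⟩
  · refine IsPreconnected.union (arc p.pt g) ⟨g, ⟨le_rfl, hgp⟩, rfl⟩ ?_
      (isPreconnected_Icc.image _ (continuous_arc _).continuousOn)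
      (isPreconnected_Icc.image _ (continuous_arc _).continuousOn)
    rw [hjoin]
    exact ⟨g, ⟨le_rfl, hgq⟩, rfl⟩
  · have hA : ∀ t ∈ Icc g p.ht, dist (arc p.pt t) (mk p) = p.ht - t := by
      intro t ht
      unfold arc
      rw [dist_mk, dist_def]
      simp only [meet, dist_self, sub_zero]
      rw [min_eq_left (by linarith [ht.2] : t ≤ 1), max_eq_right (by linarith [ht.1] : 0 ≤ t),
        min_eq_left ht.2, min_eq_left (by linarith [ht.2])]
      ring
    rintro r (⟨t, ht, rfl⟩ | ⟨t, ht, rfl⟩)
    · rw [hA t ht, hd]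
      linarith [ht.1]
    · have h1 : dist (arc q.pt t) (arc q.pt g) = t - g := by
        unfold arc
        rw [dist_mk, dist_def]
        simp only [meet, dist_self, sub_zero]
        rw [min_eq_left (by linarith [ht.2] : t ≤ 1), max_eq_right (by linarith [ht.1] : 0 ≤ t),
          min_eq_left (by linarith : g ≤ 1), max_eq_right hg0, min_eq_right ht.1,
          min_eq_left (by linarith : g ≤ 1)]
        ring
      have h2 := dist_triangle (arc q.pt t) (arc q.pt g) (mk p)
      rw [h1, ← hjoin, hA g ⟨le_rfl, hgp⟩] at h2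
      rw [hd]
      linarith [ht.2]

instance : LocallyConnectedSpace (Cone Y) := by
  refine locallyConnectedSpace_of_connected_bases (fun x r => Metric.ball x r)
    (fun _ r => 0 < r) (fun x => Metric.nhds_basis_ball) ?_
  intro x r _
  refine isPreconnected_of_forall x fun y hy => ?_
  obtain ⟨s, h1, h2, h3, h4⟩ := exists_segment x y
  refine ⟨s, fun z hz => ?_, h1, h2, h3⟩
  rw [Metric.mem_ball] at hy ⊢
  rw [dist_comm] at hy
  exact (h4 z hz).trans_lt hy

instance : PreconnectedSpace (Cone Y) := by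
  constructor
  by_cases h : Nonempty (Cone Y)
  · obtain ⟨x⟩ := h
    refine isPreconnected_of_forall x fun y _ => ?_
    obtain ⟨s, h1, h2, h3, -⟩ := exists_segment x y
    exact ⟨s, subset_univ _, h1, h2, h3⟩
  · rw [not_nonempty_iff] at h
    exact Set.Subsingleton.isPreconnected (fun x _ => (h.false x).elim)

/-- Two different points are separated by a third one. -/
lemma exists_cut (p q : Pre Y) (h : meet p q < q.ht) : ∃ (c : Cone Y) (U V : Set (Cone Y)),
    IsOpen U ∧ IsOpen V ∧ Disjoint U V ∧ {c}ᶜ ⊆ U ∪ V ∧ mk p ∈ V ∧ mk q ∈ U ∧ mk p ≠ c ∧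
    mk q ≠ c := by
  obtain ⟨θ, h1, h2⟩ := exists_between h
  have hθ0 : 0 ≤ θ := (meet_nonneg p q).trans h1.le
  have hθ1 : θ ≤ 1 := h2.le.trans q.h1
  obtain ⟨c, hc⟩ : ∃ c : Pre Y, c = ⟨q.pt, θ, hθ0, hθ1⟩ := ⟨_, rfl⟩
  have hcp : c.pt = q.pt := by rw [hc]
  have hch : c.ht = θ := by rw [hc]
  have key : ∀ r : Pre Y, meet r c = min (min r.ht θ) (1 - dist r.pt q.pt) := by
    intro r; unfold meet; rw [hcp, hch]
  -- above `c`
  have hU : IsOpen {x : Cone Y | ∃ r, mk r = x ∧ θ < r.ht ∧ θ ≤ 1 - dist r.pt q.pt} := by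
    rw [Metric.isOpen_iff]
    rintro _ ⟨r, rfl, h3, h4⟩
    refine ⟨r.ht - θ, by linarith, fun x hx => ?_⟩
    obtain ⟨s, rfl⟩ := exists_mk x
    rw [Metric.mem_ball, dist_mk, dist_def] at hx
    have h5 := meet_le_left s r
    have h6 := meet_le_dist s r
    have h7 := meet_le_right s r
    have h8 := UU.ultra s.pt r.pt q.pt
    refine ⟨s, rfl, by linarith, ?_⟩
    rcases le_total (dist s.pt r.pt) (dist r.pt q.pt) with h9 | h9
    · rw [max_eq_right h9] at h8; linarith
    · rw [max_eq_left h9] at h8; linarith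
  have hV : IsOpen {x : Cone Y | ∃ r, mk r = x ∧ (r.ht < θ ∨ 1 - dist r.pt q.pt < θ)} := by
    rw [Metric.isOpen_iff]
    rintro _ ⟨r, rfl, h3⟩
    have h3' : min r.ht (1 - dist r.pt q.pt) < θ := by
      rcases h3 with h3 | h3
      · exact (min_le_left _ _).trans_lt h3
      · exact (min_le_right _ _).trans_lt h3
    refine ⟨θ - min r.ht (1 - dist r.pt q.pt), by linarith, fun x hx => ?_⟩
    obtain ⟨s, rfl⟩ := exists_mk x
    rw [Metric.mem_ball, dist_mk, dist_def] at hx
    have h5 := meet_le_left s r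
    have h6 := meet_le_dist s r
    have h7 := meet_le_right s r
    refine ⟨s, rfl, ?_⟩
    by_contra hne
    push Not at hne
    obtain ⟨h9, h10⟩ := hne
    have h8 := UU.ultra r.pt s.pt q.pt
    rw [dist_comm r.pt s.pt] at h8
    have h11 : min (1 - dist s.pt r.pt) (1 - dist s.pt q.pt) ≤ 1 - dist r.pt q.pt := by
      rcases le_total (dist s.pt r.pt) (dist s.pt q.pt) with h12 | h12
      · rw [max_eq_right h12] at h8
        exact (min_le_right _ _).trans (by linarith)
      · rw [max_eq_left h12] at h8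
        exact (min_le_left _ _).trans (by linarith)
    have h12 : min (meet s r) θ ≤ 1 - dist r.pt q.pt :=
      (min_le_min h6 h10).trans h11
    rcases le_total (meet s r) θ with h13 | h13
    · rw [min_eq_left h13] at h12
      have : meet s r ≤ min r.ht (1 - dist r.pt q.pt) := le_min h7 h12
      linarith
    · have : θ ≤ min r.ht (1 - dist r.pt q.pt) := by
        rw [min_eq_right h13] at h12
        exact le_min (h13.trans h7) h12
      linarith
  have wd : ∀ r s : Pre Y, mk r = mk s → r.ht = s.ht ∧ (r.ht ≤ 1 - dist r.pt s.pt) := by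
    intro r s hrs
    rw [mk_eq_iff, dist_def] at hrs
    have h5 := meet_le_left r s
    have h6 := meet_le_right r s
    have h7 := meet_le_dist r s
    constructor <;> linarith
  refine ⟨mk c, _, _, hU, hV, ?_, ?_, ?_, ?_, ?_, ?_⟩
  · rw [Set.disjoint_left]
    rintro _ ⟨r, rfl, h3, h4⟩ ⟨s, hs, h5⟩
    obtain ⟨h6, h7⟩ := wd s r hs
    have h8 := UU.ultra s.pt r.pt q.pt
    rcases h5 with h5 | h5
    · linarith
    · rcases le_total (dist s.pt r.pt) (dist r.pt q.pt) with h9 | h9
      · rw [max_eq_right h9] at h8; linarith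
      · rw [max_eq_left h9] at h8; linarith
  · intro x hx
    obtain ⟨r, rfl⟩ := exists_mk x
    by_contra hne
    rw [mem_union, not_or] at hne
    obtain ⟨h3, h4⟩ := hne
    have h5 : ¬ (r.ht < θ ∨ 1 - dist r.pt q.pt < θ) := fun h => h4 ⟨r, rfl, h⟩
    push Not at h5
    have h6 : r.ht ≤ θ := by
      by_contra h7
      push Not at h7
      exact h3 ⟨r, rfl, h7, h5.2⟩
    apply hx
    rw [mem_singleton_iff, mk_eq_iff, dist_def, key, min_eq_right h5.1, min_eq_left h5.2, hch]
    linarith [h5.1]
  · refine ⟨p, rfl, ?_⟩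
    by_contra hne
    push Not at hne
    have : θ ≤ meet p q := le_min (le_min hne.1 h2.le) hne.2
    linarith
  · exact ⟨q, rfl, h2, by rw [dist_self]; linarith⟩
  · intro h3
    obtain ⟨h6, h7⟩ := wd _ _ h3
    rw [hch] at h6
    rw [hcp] at h7
    have : θ ≤ meet p q := le_min (le_min h6.ge h2.le) (h6 ▸ h7)
    linarith
  · intro h3
    obtain ⟨h6, h7⟩ := wd _ _ h3
    rw [hch] at h6
    linarith

end Pool.Agent.Q187.DC
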