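import Pool.Agent.Q187.DC.Cone

/-!
# The cone is a dendrite, and the dynamics of the cone map
-/

set_option autoImplicit false

open Set Filter Topology

namespace Pool.Agent.Q187.DC

/-- A dendrite: a compact connected locally connected metric space which contains no subset
homeomorphic to a circle. -/
def IsDendrite (X : Type) [MetricSpace X] : Prop :=
  CompactSpace X ∧ ConnectedSpace X ∧ LocallyConnectedSpace X ∧
    ∀ s : Set X, IsEmpty (s ≃ₜ Circle)

lemma circle_compl (z₀ : Circle) : IsPreconnected ({z₀}ᶜ : Set Circle) := by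
  have hpi := Real.pi_pos
  have e : ({z₀}ᶜ : Set Circle) =
      (fun t : ℝ => z₀ * Circle.exp Real.pi * Circle.exp t) '' Ioo (-Real.pi) Real.pi := by
    ext z
    constructor
    · intro hz
      refine ⟨Complex.arg ((z₀ * Circle.exp Real.pi)⁻¹ * z : Circle), ⟨Complex.neg_pi_lt_arg _,
        lt_of_le_of_ne (Complex.arg_le_pi _) fun h => hz ?_⟩, ?_⟩
      · have h1 := Circle.exp_arg ((z₀ * Circle.exp Real.pi)⁻¹ * z)
        rw [h] at h1
        have h2 : z = z₀ * (Circle.exp Real.pi * Circle.exp Real.pi) := by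
          rw [← mul_assoc]
          nth_rewrite 2 [h1]
          rw [mul_inv_cancel_left]
        rw [mem_singleton_iff, h2, ← Circle.exp_add, ← two_mul, Circle.exp_two_pi, mul_one]
      · simp only
        rw [Circle.exp_arg, mul_inv_cancel_left]
    · rintro ⟨t, ht, rfl⟩ h
      simp only [mem_singleton_iff] at h
      rw [mul_assoc, mul_eq_left, ← Circle.exp_add] at h
      have h1 : Circle.exp t = Circle.exp Real.pi := by
        have h2 : Circle.exp (Real.pi + t) * Circle.exp (-Real.pi) = Circle.exp (-Real.pi) := by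
          rw [h, one_mul]
        rw [← Circle.exp_add] at h2
        have e1 : Real.pi + t + -Real.pi = t := by ring
        rw [e1] at h2
        rw [h2]
        have e2 : Real.pi = -Real.pi + 2 * Real.pi := by ring
        nth_rewrite 2 [e2]
        rw [Circle.exp_add, Circle.exp_two_pi, mul_one]
      have h2 := congrArg (fun z : Circle => Complex.arg z) h1
      rw [Circle.arg_exp ht.1 ht.2.le, Circle.arg_exp (by linarith) le_rfl] at h2
      linarith [ht.2]
  rw [e]
  refine isPreconnected_Ioo.image _ (Continuous.continuousOn ?_)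
  exact continuous_const.mul Circle.exp.continuous

lemma circle_univ : IsPreconnected (univ : Set Circle) := by
  have e : (univ : Set Circle) = range (fun t : ℝ => Circle.exp t) := by
    ext z
    simp only [mem_univ, mem_range, true_iff]
    exact ⟨Complex.arg z, Circle.exp_arg z⟩
  rw [e]
  exact isPreconnected_range Circle.exp.continuous

variable {Y : Type} [MetricSpace Y] [UU Y]

lemma exists_cut' (a b : Cone Y) (h : a ≠ b) : ∃ (c : Cone Y) (U V : Set (Cone Y)),
    IsOpen U ∧ IsOpen V ∧ Disjoint U V ∧ {c}ᶜ ⊆ U ∪ V ∧ a ∈ V ∧ b ∈ U ∧ a ≠ c ∧ b ≠ c := by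
  obtain ⟨p, rfl⟩ := exists_mk a
  obtain ⟨q, rfl⟩ := exists_mk b
  by_cases h1 : meet p q < q.ht
  · exact exists_cut p q h1
  · have h2 : meet q p < p.ht := by
      by_contra h3
      apply h
      rw [mk_eq_iff, dist_def]
      rw [meet_comm] at h3
      have h4 := meet_le_left p q
      have h5 := meet_le_right p q
      linarith
    obtain ⟨c, U, V, k1, k2, k3, k4, k5, k6, k7, k8⟩ := exists_cut q p h2
    exact ⟨c, V, U, k2, k1, k3.symm, by rwa [union_comm], k6, k5, k8, k7⟩

lemma no_circle (s : Set (Cone Y)) : IsEmpty (s ≃ₜ Circle) := by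
  constructor
  intro e
  obtain ⟨g, hg⟩ : ∃ g : Circle → Cone Y, g = fun z => (e.symm z : Cone Y) := ⟨_, rfl⟩
  have hgc : Continuous g := by
    rw [hg]; exact continuous_subtype_val.comp e.symm.continuous
  have hgi : Function.Injective g := by
    rw [hg]
    exact Subtype.val_injective.comp e.symm.injective
  have hne : (1 : Circle) ≠ Circle.exp Real.pi := by
    intro h
    have h2 := congrArg (fun z : Circle => Complex.arg z) h
    rw [Circle.arg_exp (by linarith [Real.pi_pos]) le_rfl, Circle.coe_one, Complex.arg_one] at h2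
    linarith [Real.pi_pos]
  obtain ⟨c, U, V, k1, k2, k3, k4, k5, k6, k7, k8⟩ :=
    exists_cut' (g 1) (g (Circle.exp Real.pi)) (fun h => hne (hgi h))
  have hC : IsPreconnected {z | g z ≠ c} := by
    by_cases h : ∃ z₀, g z₀ = c
    · obtain ⟨z₀, hz⟩ := h
      have e1 : {z | g z ≠ c} = {z₀}ᶜ := by
        ext z
        simp only [mem_ofPred_eq, mem_compl_iff, mem_singleton_iff]
        constructor
        · intro h1 h2; exact h1 (by rw [h2, hz])
        · intro h1 h2; exact h1 (hgi (by rw [h2, hz]))
      rw [e1]; exact circle_compl z₀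
    · have e1 : {z | g z ≠ c} = univ := by
        ext z
        simp only [mem_ofPred_eq, mem_univ, iff_true]
        exact fun h1 => h ⟨z, h1⟩
      rw [e1]; exact circle_univ
  have hC' := hC.image g hgc.continuousOn
  obtain ⟨x, -, hx1, hx2⟩ := hC' U V k1 k2
    (by rintro _ ⟨z, hz, rfl⟩; exact k4 hz)
    ⟨_, ⟨_, k8, rfl⟩, k6⟩ ⟨_, ⟨_, k7, rfl⟩, k5⟩
  exact (Set.disjoint_left.mp k3) hx1 hx2

theorem cone_dendrite [CompactSpace Y] [Nonempty Y] : IsDendrite (Cone Y) := by
  refine ⟨?_, ?_, inferInstance, no_circle⟩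
  · have : CompactSpace (Pre Y) := inferInstance
    constructor
    have hs : Function.Surjective (mk : Pre Y → Cone Y) := exists_mk
    rw [← hs.range_eq]
    exact isCompact_range continuous_mk
  · obtain ⟨y⟩ := ‹Nonempty Y›
    exact { toPreconnectedSpace := inferInstance
            toNonempty := ⟨mk ⟨y, 0, le_rfl, zero_le_one⟩⟩ }

/-! ### The map -/

/-- The map on the points of the cone. -/
noncomputable def lift (T : Y → Y) (p : Pre Y) : Pre Y :=
  ⟨T p.pt, max (2 * p.ht - 1) 0, le_max_right _ _, max_le (by linarith [p.h1]) zero_le_one⟩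

lemma lift_dist {T : Y → Y} (hT : ∀ x y, dist (T x) (T y) ≤ 2 * dist x y) (p q : Pre Y) :
    dist (lift T p) (lift T q) ≤ 2 * dist p q := by
  rw [dist_def, dist_def]
  have h1 := meet_le_left p q
  have h2 := meet_le_right p q
  have h3 := meet_le_dist p q
  have h4 := hT p.pt q.pt
  have h5 := UU.le_one (T p.pt) (T q.pt)
  have h6 : max (2 * meet p q - 1) 0 ≤ meet (lift T p) (lift T q) := by
    unfold meet lift
    refine le_min (le_min (max_le_max (by
      have := meet_le_left p q; unfold meet at this; linarith) le_rfl) (max_le_max (by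
      have := meet_le_right p q; unfold meet at this; linarith) le_rfl)) (max_le ?_ (by
      simp only; linarith))
    simp only
    have := meet_le_dist p q
    unfold meet at this
    linarith
  have h7 : ∀ s t : ℝ, t ≤ s → max (2 * s - 1) 0 - max (2 * t - 1) 0 ≤ 2 * (s - t) := by
    intro s t hst
    rcases le_total (2 * s - 1) 0 with h8 | h8
    · rw [max_eq_right h8]
      have := le_max_right (2 * t - 1) 0
      linarith
    · rw [max_eq_left h8]
      have := le_max_left (2 * t - 1) 0
      linarith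
  have h9 := h7 p.ht (meet p q) h1
  have h10 := h7 q.ht (meet p q) h2
  have e1 : (lift T p).ht = max (2 * p.ht - 1) 0 := rfl
  have e2 : (lift T q).ht = max (2 * q.ht - 1) 0 := rfl
  rw [e1, e2]
  linarith

/-- The map on the cone. -/
noncomputable def coneMap (T : Y → Y) (hT : ∀ x y, dist (T x) (T y) ≤ 2 * dist x y) :
    Cone Y → Cone Y :=
  SeparationQuotient.lift (fun p => mk (lift T p)) (fun p q h => by
    rw [mk_eq_iff]
    rw [Metric.inseparable_iff] at h
    have h1 := lift_dist hT p q
    rw [h, mul_zero] at h1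
    exact le_antisymm h1 dist_nonneg)

lemma coneMap_mk (T : Y → Y) (hT : ∀ x y, dist (T x) (T y) ≤ 2 * dist x y) (p : Pre Y) :
    coneMap T hT (mk p) = mk (lift T p) := rfl

lemma coneMap_continuous (T : Y → Y) (hT : ∀ x y, dist (T x) (T y) ≤ 2 * dist x y) :
    Continuous (coneMap T hT) := by
  have hL : LipschitzWith 2 (coneMap T hT) := by
    refine LipschitzWith.of_dist_le_mul fun x y => ?_
    obtain ⟨p, rfl⟩ := exists_mk x
    obtain ⟨q, rfl⟩ := exists_mk y
    rw [coneMap_mk, coneMap_mk, dist_mk, dist_mk]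
    exact lift_dist hT p q
  exact hL.continuous

lemma coneMap_iterate (T : Y → Y) (hT : ∀ x y, dist (T x) (T y) ≤ 2 * dist x y) (p : Pre Y)
    (k : ℕ) : (coneMap T hT)^[k] (mk p) = mk ((lift T)^[k] p) := by
  induction k with
  | zero => rfl
  | succ k ih => rw [Function.iterate_succ_apply', Function.iterate_succ_apply', ih, coneMap_mk]

lemma lift_pt (T : Y → Y) (p : Pre Y) (k : ℕ) : ((lift T)^[k] p).pt = T^[k] p.pt := by
  induction k with
  | zero => rfl
  | succ k ih =>
    rw [Function.iterate_succ_apply', Function.iterate_succ_apply', ← ih]; rfl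

lemma lift_ht (T : Y → Y) (p : Pre Y) (k : ℕ) :
    ((lift T)^[k] p).ht = max (1 - 2 ^ k * (1 - p.ht)) 0 := by
  induction k with
  | zero => simp [max_eq_left p.h0]
  | succ k ih =>
    rw [Function.iterate_succ_apply']
    have e : (lift T ((lift T)^[k] p)).ht = max (2 * ((lift T)^[k] p).ht - 1) 0 := rfl
    rw [e, ih, pow_succ]
    rcases le_total (1 - 2 ^ k * (1 - p.ht)) 0 with h | h
    · rw [max_eq_right h, max_eq_right (by norm_num), max_eq_right (by linarith)]
    · rw [max_eq_left h]
      congr 1
      ring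

/-- The end of an arc. -/
noncomputable def tip (y : Y) : Cone Y := mk ⟨y, 1, zero_le_one, le_rfl⟩

lemma tip_dist (T : Y → Y) (hT : ∀ x y, dist (T x) (T y) ≤ 2 * dist x y) (y y' : Y) (k : ℕ) :
    dist ((coneMap T hT)^[k] (tip y)) ((coneMap T hT)^[k] (tip y')) =
      2 * dist (T^[k] y) (T^[k] y') := by
  unfold tip
  rw [coneMap_iterate, coneMap_iterate, dist_mk, dist_def]
  unfold meet
  rw [lift_pt, lift_pt, lift_ht, lift_ht]
  have h1 := UU.le_one (T^[k] y) (T^[k] y')
  have h2 : (0 : ℝ) ≤ dist (T^[k] y) (T^[k] y') := dist_nonneg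
  simp only [sub_self, mul_zero, sub_zero]
  rw [max_eq_left zero_le_one, min_self, min_eq_right (by linarith)]
  ring

lemma tip_injective : Function.Injective (tip : Y → Cone Y) := by
  intro y y' h
  unfold tip at h
  rw [mk_eq_iff, dist_def] at h
  have h1 := meet_le_dist (⟨y, 1, zero_le_one, le_rfl⟩ : Pre Y) ⟨y', 1, zero_le_one, le_rfl⟩
  simp only at h1 h
  have h2 : dist y y' ≤ 0 := by linarith
  exact dist_le_zero.mp h2

/-- A pair consists of two tips, or its distances are eventually `0`, or eventually `1`. -/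
lemma trichotomy (T : Y → Y) (hT : ∀ x y, dist (T x) (T y) ≤ 2 * dist x y) (x x' : Cone Y) :
    (∃ y y', x = tip y ∧ x' = tip y') ∨
    (∀ᶠ k in atTop, dist ((coneMap T hT)^[k] x) ((coneMap T hT)^[k] x') = 0) ∨
    (∀ᶠ k in atTop, dist ((coneMap T hT)^[k] x) ((coneMap T hT)^[k] x') = 1) := by
  obtain ⟨p, rfl⟩ := exists_mk x
  obtain ⟨q, rfl⟩ := exists_mk x'
  have hev : ∀ r : Pre Y, r.ht < 1 → ∀ᶠ k in atTop, ((lift T)^[k] r).ht = 0 := by
    intro r hr
    have h1 : Tendsto (fun k : ℕ => (2 : ℝ) ^ k * (1 - r.ht)) atTop atTop :=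
      (tendsto_pow_atTop_atTop_of_one_lt one_lt_two).atTop_mul_const (by linarith)
    filter_upwards [h1.eventually_ge_atTop 1] with k hk
    rw [lift_ht, max_eq_right (by linarith)]
  have htip : ∀ r : Pre Y, ¬ r.ht < 1 → mk r = tip r.pt := by
    intro r hr
    obtain ⟨y, t, h0, h1⟩ := r
    simp only [not_lt] at hr
    have : t = 1 := le_antisymm h1 hr
    subst this
    rfl
  have h1ht : ∀ r : Pre Y, ¬ r.ht < 1 → ∀ k, ((lift T)^[k] r).ht = 1 := by
    intro r hr k
    have : r.ht = 1 := le_antisymm r.h1 (not_lt.mp hr)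
    rw [lift_ht, this]; simp
  by_cases hp : p.ht < 1
  · right
    by_cases hq : q.ht < 1
    · left
      filter_upwards [hev p hp, hev q hq] with k h1 h2
      rw [coneMap_iterate, coneMap_iterate, dist_mk, dist_def]
      have h3 := meet_nonneg ((lift T)^[k] p) ((lift T)^[k] q)
      have h4 := meet_le_left ((lift T)^[k] p) ((lift T)^[k] q)
      rw [h1] at h4
      rw [h1, h2]
      linarith
    · right
      filter_upwards [hev p hp] with k h1
      rw [coneMap_iterate, coneMap_iterate, dist_mk, dist_def]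
      have h3 := meet_nonneg ((lift T)^[k] p) ((lift T)^[k] q)
      have h4 := meet_le_left ((lift T)^[k] p) ((lift T)^[k] q)
      rw [h1] at h4
      rw [h1, h1ht q hq k]
      linarith
  · by_cases hq : q.ht < 1
    · right; right
      filter_upwards [hev q hq] with k h1
      rw [coneMap_iterate, coneMap_iterate, dist_mk, dist_def]
      have h3 := meet_nonneg ((lift T)^[k] p) ((lift T)^[k] q)
      have h4 := meet_le_right ((lift T)^[k] p) ((lift T)^[k] q)
      rw [h1] at h4
      rw [h1, h1ht p hp k]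
      linarith
    · left
      exact ⟨p.pt, q.pt, htip p hp, htip q hq⟩

end Pool.Agent.Q187.DC
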