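import Mathlib

/-!
# Distribution functions of pairs, and the notions of chaos
-/

set_option autoImplicit false

open Set Filter Topology

namespace Pool.Agent.Q187.DC

/-- `(1/n) #{0 ≤ k ≤ n : a k < δ}`. -/
noncomputable def cnt (a : ℕ → ℝ) (δ : ℝ) (n : ℕ) : ℝ :=
  (((Finset.range (n + 1)).filter (fun k => a k < δ)).card : ℝ) / n

/-- The lower distribution function. -/
noncomputable def lowerF (a : ℕ → ℝ) (δ : ℝ) : EReal :=
  liminf (fun n => ((cnt a δ n : ℝ) : EReal)) atTop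

/-- The upper distribution function. -/
noncomputable def upperF (a : ℕ → ℝ) (δ : ℝ) : EReal :=
  limsup (fun n => ((cnt a δ n : ℝ) : EReal)) atTop

lemma lowerF_le {a : ℕ → ℝ} {δ c : ℝ} (h : ∃ᶠ n in atTop, cnt a δ n ≤ c) :
    lowerF a δ ≤ (c : EReal) :=
  liminf_le_of_frequently_le (h.mono fun n hn => by exact_mod_cast hn)

lemma le_upperF {a : ℕ → ℝ} {δ c : ℝ} (h : ∃ᶠ n in atTop, c ≤ cnt a δ n) :
    (c : EReal) ≤ upperF a δ :=
  le_limsup_of_frequently_le (h.mono fun n hn => by exact_mod_cast hn)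

lemma upperF_le {a : ℕ → ℝ} {δ c : ℝ} (h : ∀ᶠ n in atTop, cnt a δ n ≤ c) :
    upperF a δ ≤ (c : EReal) :=
  limsup_le_of_le (by isBoundedDefault) (h.mono fun n hn => by exact_mod_cast hn)

lemma le_lowerF {a : ℕ → ℝ} {δ c : ℝ} (h : ∀ᶠ n in atTop, c ≤ cnt a δ n) :
    (c : EReal) ≤ lowerF a δ :=
  le_liminf_of_le (by isBoundedDefault) (h.mono fun n hn => by exact_mod_cast hn)

/-- If the distances are eventually smaller than `δ`, the lower frequency is one. -/
lemma one_le_lowerF {a : ℕ → ℝ} {δ : ℝ} (h : ∀ᶠ k in atTop, a k < δ) : 1 ≤ lowerF a δ := by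
  refine le_of_forall_lt fun b hb => ?_
  obtain ⟨r, hr1, hr2⟩ := EReal.lt_iff_exists_real_btwn.mp hb
  have hr2' : r < 1 := by exact_mod_cast hr2
  refine hr1.trans_le (le_lowerF ?_)
  obtain ⟨K, hK⟩ := eventually_atTop.mp h
  filter_upwards [tendsto_natCast_atTop_atTop.eventually_ge_atTop ((K : ℝ) / (1 - r)),
    eventually_ge_atTop (K + 1)] with n hn hnK
  have hn0 : (0 : ℝ) < n := by exact_mod_cast (by omega : 0 < n)
  unfold cnt
  rw [le_div_iff₀ hn0]
  have h1 : ((Finset.Ico K (n + 1)).card : ℝ) ≤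
      (((Finset.range (n + 1)).filter (fun k => a k < δ)).card : ℝ) := by
    exact_mod_cast Finset.card_le_card fun k hk => by
      rw [Finset.mem_Ico] at hk
      rw [Finset.mem_filter, Finset.mem_range]
      exact ⟨hk.2, hK k hk.1⟩
  rw [Nat.card_Ico, Nat.cast_sub (by omega)] at h1
  push_cast at h1
  rw [div_le_iff₀ (by linarith)] at hn
  nlinarith

/-- If the distances are eventually at least `δ`, the upper frequency is zero. -/
lemma upperF_le_zero {a : ℕ → ℝ} {δ : ℝ} (h : ∀ᶠ k in atTop, δ ≤ a k) : upperF a δ ≤ 0 := by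
  refine le_of_forall_gt fun b hb => ?_
  obtain ⟨r, hr1, hr2⟩ := EReal.lt_iff_exists_real_btwn.mp hb
  have hr1' : 0 < r := by exact_mod_cast hr1
  refine (upperF_le ?_).trans_lt hr2
  obtain ⟨K, hK⟩ := eventually_atTop.mp h
  filter_upwards [tendsto_natCast_atTop_atTop.eventually_ge_atTop ((K : ℝ) / r),
    eventually_ge_atTop (K + 1)] with n hn hnK
  have hn0 : (0 : ℝ) < n := by exact_mod_cast (by omega : 0 < n)
  unfold cnt
  rw [div_le_iff₀ hn0]
  have h1 : (((Finset.range (n + 1)).filter (fun k => a k < δ)).card : ℝ) ≤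
      ((Finset.range K).card : ℝ) := by
    exact_mod_cast Finset.card_le_card fun k hk => by
      rw [Finset.mem_filter, Finset.mem_range] at hk
      rw [Finset.mem_range]
      by_contra h2
      push Not at h2
      exact absurd hk.2 (not_lt.mpr (hK k h2))
  rw [Finset.card_range] at h1
  rw [div_le_iff₀ hr1'] at hn
  linarith

section Pairs

variable {X : Type} [MetricSpace X]

/-- The distances along the orbits of a pair. -/
noncomputable def orbDist (f : X → X) (x y : X) (k : ℕ) : ℝ := dist (f^[k] x) (f^[k] y)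

/-- Li-Yorke pairs. -/
def IsLYPair (f : X → X) (x y : X) : Prop :=
  x ≠ y ∧ liminf (fun k => ((orbDist f x y k : ℝ) : EReal)) atTop = 0 ∧
    0 < limsup (fun k => ((orbDist f x y k : ℝ) : EReal)) atTop

/-- Distributionally chaotic pairs of type 2. -/
def IsDC2Pair (f : X → X) (x y : X) : Prop :=
  x ≠ y ∧ (∀ δ : ℝ, 0 < δ → δ ≤ Metric.diam (univ : Set X) → upperF (orbDist f x y) δ = 1) ∧
    ∃ ε : ℝ, 0 < ε ∧ ε ≤ Metric.diam (univ : Set X) ∧ lowerF (orbDist f x y) ε < 1

/-- Distributionally chaotic pairs of type 2½. Both distribution functions are monotone in `δ`, so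
their limits for `δ → 0+` are the infima over `δ > 0`. -/
def IsDC2hPair (f : X → X) (x y : X) : Prop :=
  x ≠ y ∧ (⨅ (δ : ℝ) (_ : 0 < δ), lowerF (orbDist f x y) δ) <
    ⨅ (δ : ℝ) (_ : 0 < δ), upperF (orbDist f x y) δ

/-- Distributionally chaotic pairs of type 3. -/
def IsDC3Pair (f : X → X) (x y : X) : Prop :=
  x ≠ y ∧ ∃ a b : ℝ, 0 ≤ a ∧ a < b ∧ b ≤ Metric.diam (univ : Set X) ∧
    ∀ δ : ℝ, a < δ → δ < b → lowerF (orbDist f x y) δ < upperF (orbDist f x y) δ

lemma orbDist_le_diam [CompactSpace X] (f : X → X) (x y : X) (k : ℕ) :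
    orbDist f x y k ≤ Metric.diam (univ : Set X) :=
  Metric.dist_le_diam_of_mem isCompact_univ.isBounded (mem_univ _) (mem_univ _)

lemma not_LY_of_zero {f : X → X} {x y : X} (h : ∀ᶠ k in atTop, orbDist f x y k = 0) :
    ¬ IsLYPair f x y := by
  rintro ⟨-, -, h2⟩
  have h3 : limsup (fun k => ((orbDist f x y k : ℝ) : EReal)) atTop ≤ 0 :=
    limsup_le_of_le (by isBoundedDefault) (h.mono fun k hk => by rw [hk]; exact le_rfl)
  exact absurd h2 (not_lt.mpr h3)

lemma not_LY_of_pos {f : X → X} {x y : X} {c : ℝ} (hc : 0 < c)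
    (h : ∀ᶠ k in atTop, c ≤ orbDist f x y k) : ¬ IsLYPair f x y := by
  rintro ⟨-, h1, -⟩
  have h3 : (c : EReal) ≤ liminf (fun k => ((orbDist f x y k : ℝ) : EReal)) atTop :=
    le_liminf_of_le (by isBoundedDefault) (h.mono fun k hk => by exact_mod_cast hk)
  rw [h1] at h3
  have h4 : (c : EReal) ≤ ((0 : ℝ) : EReal) := h3
  have h5 : c ≤ 0 := by exact_mod_cast h4
  linarith

lemma not_DC2_of_zero {f : X → X} {x y : X} (h : ∀ᶠ k in atTop, orbDist f x y k = 0) :
    ¬ IsDC2Pair f x y := by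
  rintro ⟨-, -, ε, hε, -, h2⟩
  exact absurd h2 (not_lt.mpr (one_le_lowerF (h.mono fun k hk => by rw [hk]; exact hε)))

lemma not_DC2_of_pos [CompactSpace X] {f : X → X} {x y : X} {c : ℝ} (hc : 0 < c)
    (h : ∀ᶠ k in atTop, c ≤ orbDist f x y k) : ¬ IsDC2Pair f x y := by
  rintro ⟨-, h1, -⟩
  obtain ⟨k, hk⟩ := h.exists
  have h2 := h1 c hc (hk.trans (orbDist_le_diam f x y k))
  have h3 := upperF_le_zero h
  rw [h2] at h3
  exact absurd h3 (by norm_num)

end Pairs

end Pool.Agent.Q187.DC
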