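import Pool.Agent.Q187.DC.Dyn
import Pool.Agent.Q187.DC.Freq

/-!
# The symbolic space: sequences of symbols with the coordinate of an odometer
-/

set_option autoImplicit false

open Set Filter Topology

namespace Pool.Agent.Q187.DC

/-- The lengths of the blocks: `P 0 = 1`, `P (i + 1) = 16 * 4 ^ i * P i`. -/
def P (i : ℕ) : ℕ := 2 ^ (i ^ 2 + 3 * i)

/-- `P (i + 1) = lam i * P i`. -/
def lam (i : ℕ) : ℕ := 16 * 4 ^ i

lemma P_zero : P 0 = 1 := rfl

lemma P_pos (i : ℕ) : 0 < P i := by unfold P; positivity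

lemma lam_ge (i : ℕ) : 16 ≤ lam i := by
  unfold lam
  have : 1 ≤ 4 ^ i := Nat.one_le_pow _ _ (by norm_num)
  omega

lemma P_succ (i : ℕ) : P (i + 1) = lam i * P i := by
  unfold P lam
  have e : (i + 1) ^ 2 + 3 * (i + 1) = 4 + 2 * i + (i ^ 2 + 3 * i) := by ring
  rw [e, pow_add, pow_add, pow_mul]
  norm_num

lemma le_P (i : ℕ) : i < P i := by
  induction i with
  | zero => simp [P_zero]
  | succ i ih =>
    rw [P_succ]
    have := lam_ge i
    nlinarith

lemma P_dvd {i j : ℕ} (h : i ≤ j) : P i ∣ P j := by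
  induction j with
  | zero => rw [Nat.le_zero.mp h]
  | succ j ih =>
    rcases Nat.lt_or_ge i (j + 1) with h1 | h1
    · exact (ih (by omega)).trans ⟨lam j, by rw [P_succ, mul_comm]⟩
    · rw [le_antisymm h h1]

lemma P_mono {i j : ℕ} (h : i ≤ j) : P i ≤ P j := Nat.le_of_dvd (P_pos j) (P_dvd h)

instance (i : ℕ) : NeZero (P i) := ⟨(P_pos i).ne'⟩

/-- Sequences: the `n`-th entry consists of the symbol at time `n` and the coordinate modulo `P n`
of the odometer. -/
def W : Type := ∀ n : ℕ, Bool × Fin (P n)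

noncomputable instance instMetricW : MetricSpace W :=
  PiNat.metricSpace (E := fun n : ℕ => Bool × Fin (P n))

instance : CompactSpace W :=
  inferInstanceAs (CompactSpace (∀ n : ℕ, Bool × Fin (P n)))

lemma W_continuous_apply (n : ℕ) : Continuous (fun w : W => w n) :=
  continuous_apply (A := fun n : ℕ => Bool × Fin (P n)) n

lemma W_dist_le_iff (x y : W) (n : ℕ) : dist x y ≤ (1 / 2) ^ n ↔ ∀ i < n, x i = y i := by
  have h := @PiNat.mem_cylinder_iff_dist_le (fun n : ℕ => Bool × Fin (P n)) y x n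
  have e : dist x y = @dist _ (PiNat.dist (E := fun n : ℕ => Bool × Fin (P n))) x y := rfl
  rw [e, ← h]
  exact Iff.rfl

lemma W_dist_ne (x y : W) (h : x ≠ y) : ∃ n, dist x y = (1 / 2) ^ n ∧ x n ≠ y n ∧
    ∀ i < n, x i = y i := by
  refine ⟨PiNat.firstDiff x y, ?_, PiNat.apply_firstDiff_ne h,
    fun i hi => PiNat.apply_eq_of_lt_firstDiff hi⟩
  have e : dist x y = @dist _ (PiNat.dist (E := fun n : ℕ => Bool × Fin (P n))) x y := rfl
  rw [e, PiNat.dist_eq_of_ne h]

instance : UU W where
  ultra x y z := PiNat.dist_triangle_nonarch (E := fun n : ℕ => Bool × Fin (P n)) x y z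
  le_one x y := by
    by_cases h : x = y
    · rw [h, dist_self]; norm_num
    · obtain ⟨n, h1, -, -⟩ := W_dist_ne x y h
      rw [h1]
      exact pow_le_one₀ (by norm_num) (by norm_num)

/-- The shift. -/
def T (w : W) : W := fun n => ((w (n + 1)).1, (w n).2 + 1)

lemma T_dist (x y : W) : dist (T x) (T y) ≤ 2 * dist x y := by
  by_cases h : x = y
  · rw [h, dist_self, dist_self]; norm_num
  · obtain ⟨n, h1, -, h3⟩ := W_dist_ne x y h
    rw [h1]
    rcases n with _ | n
    · have := UU.le_one (T x) (T y)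
      rw [pow_zero]; linarith
    · have h4 : dist (T x) (T y) ≤ (1 / 2) ^ n := by
        rw [W_dist_le_iff]
        intro i hi
        unfold T
        rw [h3 (i + 1) (by omega), h3 i (by omega)]
      rw [pow_succ]
      linarith

lemma T_iter (w : W) (k n : ℕ) : T^[k] w n = ((w (n + k)).1, (w n).2 + (Fin.ofNat (P n) k)) := by
  induction k generalizing w with
  | zero =>
    apply Prod.ext
    · rfl
    · simp
  | succ k ih =>
    rw [Function.iterate_succ_apply, ih]
    unfold T
    apply Prod.ext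
    · simp only
      congr 2
    · simp only
      rw [add_assoc]
      congr 1
      apply Fin.ext
      simp [Fin.add_def, Fin.ofNat, Nat.add_comm]

/-- The symbol at time `k`. -/
lemma T_iter_symbol (w : W) (k : ℕ) : (T^[k] w 0).1 = (w k).1 := by
  rw [T_iter, zero_add]

/-- The distance is at least `1` when the first symbols differ. -/
lemma dist_symbol_ne (x y : W) (h : (x 0).1 ≠ (y 0).1) : dist x y = 1 := by
  have hne : x ≠ y := fun h1 => h (by rw [h1])
  obtain ⟨n, h1, h2, h3⟩ := W_dist_ne x y hne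
  rcases n with _ | n
  · rw [h1, pow_zero]
  · exact absurd (congrArg Prod.fst (h3 0 (by omega))) h

lemma fin_P_zero (a b : Fin (P 0)) : a = b := by
  have h : P 0 = 1 := rfl
  apply Fin.ext
  have h1 := a.2
  have h2 := b.2
  omega

lemma dist_symbol_eq (x y : W) (h : (x 0).1 = (y 0).1) : dist x y ≤ 1 / 2 := by
  have := (W_dist_le_iff x y 1).mpr (by
    intro i hi
    have : i = 0 := by omega
    subst this
    exact Prod.ext h (fin_P_zero _ _))
  rwa [pow_one] at this

/-- Two points with different odometer coordinates stay apart. -/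
lemma dist_odometer (x y : W) (n : ℕ) (h : (x n).2 ≠ (y n).2) (k : ℕ) :
    (1 / 2 : ℝ) ^ (n + 1) ≤ dist (T^[k] x) (T^[k] y) := by
  by_contra hne
  push Not at hne
  have h1 := (W_dist_le_iff _ _ _).mp hne.le n (by omega)
  rw [T_iter, T_iter] at h1
  have h2 := congrArg Prod.snd h1
  simp only at h2
  exact h (add_right_cancel h2)

/-! ### Closed invariant subsets -/

variable {S : Set W}

instance : UU S where
  ultra x y z := UU.ultra (x : W) y z
  le_one x y := UU.le_one (x : W) y

/-- The restriction of the shift. -/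
def TS (hS : ∀ w ∈ S, T w ∈ S) (w : S) : S := ⟨T w, hS w w.2⟩

lemma TS_dist (hS : ∀ w ∈ S, T w ∈ S) (x y : S) :
    dist (TS hS x) (TS hS y) ≤ 2 * dist x y := T_dist x y

lemma TS_iter (hS : ∀ w ∈ S, T w ∈ S) (w : S) (k : ℕ) : ((TS hS)^[k] w : W) = T^[k] w := by
  induction k with
  | zero => rfl
  | succ k ih => rw [Function.iterate_succ_apply', Function.iterate_succ_apply', ← ih]; rfl

/-- The map on the cone. -/
noncomputable def fS (hS : ∀ w ∈ S, T w ∈ S) : Cone S → Cone S := coneMap (TS hS) (TS_dist hS)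

lemma orbDist_tip (hS : ∀ w ∈ S, T w ∈ S) (x y : S) (k : ℕ) :
    orbDist (fS hS) (tip x) (tip y) k = 2 * dist (T^[k] (x : W)) (T^[k] (y : W)) := by
  unfold orbDist fS
  rw [tip_dist, Subtype.dist_eq, TS_iter, TS_iter]

end Pool.Agent.Q187.DC
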